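import Pool.Agent.Q1.CV.Count

set_option autoImplicit false

/-! # Disjoint classes of equal size on the hyperplanes given by pairwise independent forms -/

namespace Pool.Agent.Q1.CV

open Finset
open scoped Classical

lemma exists_classes {n : ℕ} {Λ U : Type} [Fintype Λ] [Fintype U] (A : Λ → Fin (n + 2) → ℤ)
    (res : U → ℤ) (p : ℕ) [Fact p.Prime] (hA : ∀ l, ∃ j, (A l j : ZMod p) ≠ 0)
    (hAA : ∀ l l', l ≠ l' → ∃ j j', (A l j : ZMod p) * A l' j' - A l j' * A l' j ≠ 0)
    (hinj : ∀ k k', k ≠ k' → (res k : ZMod p) ≠ res k') :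
    ∃ R : Λ × U → Finset (Fin (n + 2) → ZMod p),
      (∀ c, (R c).card = p ^ n * (p - Fintype.card (Λ × U))) ∧
      (∀ c c', c ≠ c' → Disjoint (R c) (R c')) ∧
      ∀ c, ∀ w ∈ R c, form (A c.1) w = res c.2 := by
  have hp : p.Prime := Fact.out
  have hp0 : 0 < p := hp.pos
  set Base : Λ × U → Finset (Fin (n + 2) → ZMod p) := fun c =>
    Finset.univ.filter (fun w => form (A c.1) w = res c.2 ∧
      ∀ c' : Λ × U, c'.1 ≠ c.1 → form (A c'.1) w ≠ res c'.2) with hBase
  have hcard : ∀ c, p ^ n * (p - Fintype.card (Λ × U)) ≤ (Base c).card := by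
    intro c
    obtain ⟨j, hj⟩ := hA c.1
    have h1 := card_hyp (A c.1) j hj (res c.2 : ZMod p)
    set Hy := Finset.univ.filter (fun w : Fin (n + 2) → ZMod p => form (A c.1) w = res c.2) with hHy
    have h1' : Hy.card = p ^ (n + 1) := by
      have : p ^ (n + 2) = p ^ (n + 1) * p := pow_succ _ _
      rw [this] at h1
      exact Nat.eq_of_mul_eq_mul_right hp0 h1
    have h2 : Hy ⊆ Base c ∪ (Finset.univ.filter (fun c' : Λ × U => c'.1 ≠ c.1)).biUnion
        (fun c' => Finset.univ.filter (fun w : Fin (n + 2) → ZMod p =>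
          form (A c.1) w = res c.2 ∧ form (A c'.1) w = res c'.2)) := by
      intro w hw
      rw [hHy, Finset.mem_filter] at hw
      rw [Finset.mem_union]
      by_cases hb : ∀ c' : Λ × U, c'.1 ≠ c.1 → form (A c'.1) w ≠ res c'.2
      · left
        rw [hBase, Finset.mem_filter]
        exact ⟨Finset.mem_univ _, hw.2, hb⟩
      · right
        push Not at hb
        obtain ⟨c', hc1, hc2⟩ := hb
        rw [Finset.mem_biUnion]
        refine ⟨c', Finset.mem_filter.mpr ⟨Finset.mem_univ _, hc1⟩, ?_⟩
        rw [Finset.mem_filter]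
        exact ⟨Finset.mem_univ _, hw.2, hc2⟩
    have h3 := (Finset.card_le_card h2).trans (Finset.card_union_le _ _)
    have h4 : ((Finset.univ.filter (fun c' : Λ × U => c'.1 ≠ c.1)).biUnion
        (fun c' => Finset.univ.filter (fun w : Fin (n + 2) → ZMod p =>
          form (A c.1) w = res c.2 ∧ form (A c'.1) w = res c'.2))).card ≤
        Fintype.card (Λ × U) * p ^ n := by
      refine Finset.card_biUnion_le.trans ?_
      calc _ ≤ ∑ _c' ∈ (Finset.univ.filter (fun c' : Λ × U => c'.1 ≠ c.1)), p ^ n := by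
            apply Finset.sum_le_sum
            intro c' hc'
            rw [Finset.mem_filter] at hc'
            obtain ⟨j, j', hD⟩ := hAA c.1 c'.1 (Ne.symm hc'.2)
            have h5 := card_hyp2 (A c.1) (A c'.1) j j' hD (res c.2 : ZMod p) (res c'.2 : ZMod p)
            have h6 : p ^ (n + 2) = p ^ n * p ^ 2 := pow_add _ _ _
            rw [h6] at h5
            exact (Nat.eq_of_mul_eq_mul_right (pow_pos hp0 2) h5).le
        _ ≤ ∑ _c' : Λ × U, p ^ n :=
            Finset.sum_le_sum_of_subset (Finset.filter_subset _ _)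
        _ = _ := by rw [Finset.sum_const, smul_eq_mul, Finset.card_univ]
    rw [h1'] at h3
    have h5 : p ^ (n + 1) ≤ (Base c).card + Fintype.card (Λ × U) * p ^ n := by omega
    rw [Nat.mul_sub, mul_comm (p ^ n) (Fintype.card _), ← pow_succ]
    omega
  choose R hR1 hR2 using fun c => Finset.exists_subset_card_eq (hcard c)
  have hform : ∀ c, ∀ w ∈ R c, form (A c.1) w = res c.2 := by
    intro c w hw
    have := hR1 c hw
    rw [hBase, Finset.mem_filter] at this
    exact this.2.1
  refine ⟨R, hR2, ?_, hform⟩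
  intro c c' hne
  rw [Finset.disjoint_left]
  intro w hw hw'
  by_cases h : c'.1 = c.1
  · have h1 := hform c w hw
    have h2 := hform c' w hw'
    rw [h, h1] at h2
    by_cases hk : c.2 = c'.2
    · exact hne (Prod.ext h.symm hk)
    · exact hinj _ _ hk h2
  · have h1 := hR1 c hw
    rw [hBase, Finset.mem_filter] at h1
    exact h1.2.2 c' h (hform c' w hw')

end Pool.Agent.Q1.CV
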