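import Pool.Agent.H256R2.SC.V1

set_option autoImplicit false

/-! # Colourings of vectors of integers by sets of residue vectors

At the prime `p` a vector of integers gets the colour `c` if its reduction modulo `p` lies in the set
`R p c`; the sets are disjoint and have the same cardinality `G p`.  Here: the distribution of the
colours in a family of vectors that is well distributed in the residue classes. -/

namespace Pool.Agent.Q1.CV

open Finset
open Pool.Agent.H256R2.SC (crt_int)
open scoped Classical

section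

variable {r : ℕ} {κ : Type}

/-- reduction of a vector -/
def red (w : Fin r → ℤ) (p : ℕ) : Fin r → ZMod p := fun j => (w j : ZMod p)

/-- the colour of the vector `w` at `p` -/
noncomputable def colG (R : (p : ℕ) → κ → Finset (Fin r → ZMod p)) (w : Fin r → ℤ) (p : ℕ) :
    Option κ :=
  if h : ∃ c, red w p ∈ R p c then some h.choose else none

lemma colG_eq {R : (p : ℕ) → κ → Finset (Fin r → ZMod p)} {w : Fin r → ℤ} {p : ℕ} {c : κ}
    (hdis : ∀ c c', c ≠ c' → Disjoint (R p c) (R p c')) :
    colG R w p = some c ↔ red w p ∈ R p c := by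
  unfold colG
  constructor
  · intro h
    split_ifs at h with h1
    rw [← Option.some.inj h]
    exact h1.choose_spec
  · intro h
    have h1 : ∃ c, red w p ∈ R p c := ⟨c, h⟩
    rw [dif_pos h1]
    congr 1
    by_contra hne
    exact Finset.disjoint_left.mp (hdis _ _ hne) h1.choose_spec h

lemma red_eq_iff {p : ℕ} (hp : 0 < p) (w : Fin r → ℤ) (ρ : Fin r → ZMod p) :
    red w p = ρ ↔ ∀ j, (p : ℤ) ∣ w j - ((ρ j).val : ℤ) := by
  have : NeZero p := ⟨hp.ne'⟩
  constructor
  · intro h j
    have h1 := congrFun h j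
    unfold red at h1
    rw [← (ZMod.intCast_zmod_eq_zero_iff_dvd _ _)]
    push_cast
    rw [h1, ZMod.natCast_zmod_val, sub_self]
  · intro h
    funext j
    have h1 := (ZMod.intCast_zmod_eq_zero_iff_dvd _ _).mpr (h j)
    push_cast at h1
    rw [ZMod.natCast_zmod_val] at h1
    unfold red
    exact sub_eq_zero.mp h1

theorem countG [DecidableEq κ] {ι : Type} (𝒜 : Finset ι) (v : ι → Fin r → ℤ)
    (R : (p : ℕ) → κ → Finset (Fin r → ZMod p)) (G : ℕ → ℕ)
    (N Err Q lb : ℝ)
    (hcount : ∀ q : ℕ, Squarefree q → (q : ℝ) ≤ Q → (∀ p ∈ q.primeFactors, lb < p) →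
      ∀ ρ : Fin r → ℤ, |((𝒜.filter (fun x => ∀ j, (q : ℤ) ∣ v x j - ρ j)).card : ℝ) -
        N / (q : ℝ) ^ r| ≤ Err) (S : Finset ℕ) :
    ∀ (T : Finset ℕ), (∀ p ∈ S, p.Prime ∧ lb < p) →
    (∀ p ∈ S, (∀ c, (R p c).card = G p) ∧ ∀ c c', c ≠ c' → Disjoint (R p c) (R p c')) →
    (∀ p ∈ T, p.Prime ∧ lb < p) → Disjoint S T →
    (∏ p ∈ S, (p : ℝ)) * (∏ p ∈ T, (p : ℝ)) ≤ Q →
    ∀ (D : ℕ → Option κ), (∀ p ∈ S, D p ≠ none) → ∀ (τ : ℕ → Fin r → ℤ),
    |((𝒜.filter (fun x => (∀ p ∈ S, colG R (v x) p = D p) ∧
        ∀ p ∈ T, ∀ j, (p : ℤ) ∣ v x j - τ p j)).card : ℝ) -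
      N * (∏ p ∈ S, ((G p : ℝ) / (p : ℝ) ^ r)) * ∏ p ∈ T, (1 / (p : ℝ) ^ r)| ≤
        Err * ∏ p ∈ S, (G p : ℝ) := by
  induction S using Finset.induction_on with
  | empty =>
    intro T _ _ hT _ hQ D _ τ
    have hcop : ∀ p ∈ T, ∀ q ∈ T, p ≠ q → IsCoprime (p : ℤ) (q : ℤ) := fun p hp q hq hpq =>
      Nat.isCoprime_iff_coprime.mpr ((Nat.coprime_primes (hT p hp).1 (hT q hq).1).mpr hpq)
    have h1 : ∀ j : Fin r, ∃ ρ : ℤ, ∀ p ∈ T, (p : ℤ) ∣ ρ - τ p j := fun j =>
      crt_int T (fun p => (p : ℤ)) hcop (fun p => τ p j)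
    choose ρ hρ using h1
    set q : ℕ := ∏ p ∈ T, p with hq
    have hqr : (q : ℝ) = ∏ p ∈ T, (p : ℝ) := by rw [hq]; push_cast; rfl
    have hsq : Squarefree q := by
      rw [hq]
      refine Finset.squarefree_prod_of_pairwise_isCoprime ?_ ?_
      · intro p hp p' hp' hpp
        exact Nat.coprime_iff_isRelPrime.mp ((Nat.coprime_primes (hT p hp).1 (hT p' hp').1).mpr hpp)
      · intro p hp
        exact (hT p hp).1.squarefree
    have h2 : (𝒜.filter (fun x => (∀ p ∈ (∅ : Finset ℕ), colG R (v x) p = D p) ∧
        ∀ p ∈ T, ∀ j, (p : ℤ) ∣ v x j - τ p j)) =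
        𝒜.filter (fun x => ∀ j, (q : ℤ) ∣ v x j - ρ j) := by
      apply Finset.filter_congr
      intro x _
      constructor
      · rintro ⟨_, h⟩ j
        have e : ((q : ℕ) : ℤ) = ∏ p ∈ T, (p : ℤ) := by rw [hq]; push_cast; rfl
        rw [e]
        apply Finset.prod_dvd_of_coprime
        · intro p hp p' hp' hpp
          exact hcop p hp p' hp' hpp
        · intro p hp
          have h3 := dvd_sub (h p hp j) (hρ j p hp)
          have e2 : v x j - τ p j - (ρ j - τ p j) = v x j - ρ j := by ring
          rwa [e2] at h3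
      · intro h
        refine ⟨by simp, fun p hp j => ?_⟩
        have h3 : (p : ℤ) ∣ (q : ℤ) := by
          exact_mod_cast Finset.dvd_prod_of_mem (fun p => p) hp
        have h4 := dvd_add (h3.trans (h j)) (hρ j p hp)
        have e2 : v x j - ρ j + (ρ j - τ p j) = v x j - τ p j := by ring
        rwa [e2] at h4
    rw [h2]
    have h3 := hcount q hsq (by rw [hqr]; simpa using hQ) (by
      intro p hp
      rw [Nat.mem_primeFactors] at hp
      obtain ⟨p', hp', hd⟩ := (Prime.dvd_finsetProd_iff hp.1.prime _).mp hp.2.1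
      rw [(Nat.prime_dvd_prime_iff_eq hp.1 (hT p' hp').1).mp hd]
      exact (hT p' hp').2) ρ
    have h4 : N * (∏ p ∈ (∅ : Finset ℕ), ((G p : ℝ) / (p : ℝ) ^ r)) * ∏ p ∈ T, (1 / (p : ℝ) ^ r) =
        N / (q : ℝ) ^ r := by
      rw [Finset.prod_empty, mul_one, Finset.prod_div_distrib, Finset.prod_const_one,
        Finset.prod_pow, ← hqr]
      ring
    rw [h4]
    simpa using h3
  | insert p S hpS ih =>
    intro T hS hinj hT hdisj hQ D hD τ
    have hpp := hS p (Finset.mem_insert_self _ _)
    have hp0 : 0 < p := hpp.1.pos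
    have hp0' : (0 : ℝ) < p := by exact_mod_cast hp0
    obtain ⟨hcG, hpi⟩ := hinj p (Finset.mem_insert_self _ _)
    obtain ⟨c, hc⟩ := Option.ne_none_iff_exists'.mp (hD p (Finset.mem_insert_self _ _))
    have hpT : p ∉ T := Finset.disjoint_left.mp hdisj (Finset.mem_insert_self _ _)
    set F := 𝒜.filter (fun x => (∀ p' ∈ insert p S, colG R (v x) p' = D p') ∧
        ∀ p' ∈ T, ∀ j, (p' : ℤ) ∣ v x j - τ p' j) with hF
    -- fibres
    have hmap : ∀ x ∈ F, red (v x) p ∈ R p c := by
      intro x hx
      rw [hF, Finset.mem_filter] at hx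
      have h1 := hx.2.1 p (Finset.mem_insert_self _ _)
      rwa [hc, colG_eq hpi] at h1
    have hcard := Finset.card_eq_sum_card_fiberwise (s := F) (t := R p c)
      (f := fun x => red (v x) p) hmap
    have hfib : ∀ ρ ∈ R p c, (F.filter (fun x => red (v x) p = ρ)) =
        𝒜.filter (fun x => (∀ p' ∈ S, colG R (v x) p' = D p') ∧
          ∀ p' ∈ insert p T, ∀ j, (p' : ℤ) ∣ v x j -
            (Function.update τ p (fun j => ((ρ j).val : ℤ))) p' j) := by
      intro ρ hρ
      rw [hF, Finset.filter_filter]
      apply Finset.filter_congr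
      intro x _
      constructor
      · rintro ⟨⟨h1, h2⟩, h3⟩
        refine ⟨fun p' hp' => h1 p' (Finset.mem_insert_of_mem hp'), ?_⟩
        intro p' hp' j
        rcases Finset.mem_insert.mp hp' with rfl | hp'
        · rw [Function.update_self]
          exact (red_eq_iff hp0 _ _).mp h3 j
        · have hne : p' ≠ p := fun h => hpT (h ▸ hp')
          rw [Function.update_of_ne hne]
          exact h2 p' hp' j
      · rintro ⟨h1, h2⟩
        have h3 : red (v x) p = ρ := by
          rw [red_eq_iff hp0]
          intro j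
          have h4 := h2 p (Finset.mem_insert_self _ _) j
          rwa [Function.update_self] at h4
        refine ⟨⟨?_, ?_⟩, h3⟩
        · intro p' hp'
          rcases Finset.mem_insert.mp hp' with rfl | hp'
          · rw [hc, colG_eq hpi, h3]
            exact hρ
          · exact h1 p' hp'
        · intro p' hp' j
          have h4 := h2 p' (Finset.mem_insert_of_mem hp') j
          have hne : p' ≠ p := fun h => hpT (h ▸ hp')
          rwa [Function.update_of_ne hne] at h4
    have hdisj' : Disjoint S (insert p T) := by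
      rw [Finset.disjoint_insert_right]
      exact ⟨hpS, (Finset.disjoint_insert_left.mp hdisj).2⟩
    have hih : ∀ ρ : Fin r → ZMod p, _ := fun ρ =>
      ih (insert p T) (fun p' hp' => hS p' (Finset.mem_insert_of_mem hp'))
      (fun p' hp' => hinj p' (Finset.mem_insert_of_mem hp'))
      (fun p' hp' => by
        rcases Finset.mem_insert.mp hp' with rfl | hp'
        · exact hpp
        · exact hT p' hp') hdisj'
      (by
        rw [Finset.prod_insert hpT]
        rw [Finset.prod_insert hpS] at hQ
        calc _ = (p : ℝ) * (∏ p ∈ S, (p : ℝ)) * ∏ p ∈ T, (p : ℝ) := by ring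
          _ ≤ _ := hQ) D
      (fun p' hp' => hD p' (Finset.mem_insert_of_mem hp'))
      (Function.update τ p (fun j => ((ρ j).val : ℤ)))
    rw [hcard]
    push_cast
    rw [Finset.sum_congr rfl fun ρ hρ => by rw [hfib ρ hρ]]
    -- the main term
    have hR : ((R p c).card : ℝ) = G p := by rw [hcG c]
    have hmain : N * (∏ p' ∈ insert p S, ((G p' : ℝ) / (p' : ℝ) ^ r)) *
        ∏ p' ∈ T, (1 / (p' : ℝ) ^ r) =
        ∑ _ρ ∈ R p c, N * (∏ p' ∈ S, ((G p' : ℝ) / (p' : ℝ) ^ r)) *
          ∏ p' ∈ insert p T, (1 / (p' : ℝ) ^ r) := by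
      rw [Finset.sum_const, nsmul_eq_mul, hR, Finset.prod_insert hpS, Finset.prod_insert hpT]
      ring
    rw [hmain, ← Finset.sum_sub_distrib]
    refine (Finset.abs_sum_le_sum_abs _ _).trans ?_
    refine (Finset.sum_le_sum fun ρ _ => hih ρ).trans ?_
    rw [Finset.sum_const, nsmul_eq_mul, Finset.prod_insert hpS, hR]
    apply le_of_eq
    ring

end

/-! ## Affine hyperplanes over a finite field -/

section

/-- the value of the linear form with integer coefficients `A` at a vector over `ZMod p` -/
def form {r : ℕ} {p : ℕ} (A : Fin r → ℤ) (w : Fin r → ZMod p) : ZMod p :=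
  ∑ j, (A j : ZMod p) * w j

variable {r : ℕ} {p : ℕ} [Fact p.Prime]

lemma form_add (A : Fin r → ℤ) (w w' : Fin r → ZMod p) : form A (w + w') = form A w + form A w' := by
  unfold form
  rw [← Finset.sum_add_distrib]
  exact Finset.sum_congr rfl fun j _ => by rw [Pi.add_apply]; ring

/-- fibres of surjective homomorphisms of finite abelian groups -/
lemma card_fiber {V W : Type} [AddCommGroup V] [Fintype V] [AddCommGroup W] [Fintype W]
    [DecidableEq W] (f : V →+ W) (hf : Function.Surjective f) (c : W) :
    (Finset.univ.filter (fun v => f v = c)).card * Fintype.card W = Fintype.card V := by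
  have h1 : ∀ c' : W, (Finset.univ.filter (fun v => f v = c')).card =
      (Finset.univ.filter (fun v => f v = c)).card := by
    intro c'
    obtain ⟨d, hd⟩ := hf (c - c')
    apply Finset.card_bij (fun v _ => v + d)
    · intro v hv
      rw [Finset.mem_filter] at hv ⊢
      refine ⟨Finset.mem_univ _, ?_⟩
      rw [map_add, hv.2, hd]
      abel
    · intro v _ v' _ h
      exact add_right_cancel h
    · intro v hv
      rw [Finset.mem_filter] at hv
      refine ⟨v - d, ?_, by abel⟩
      rw [Finset.mem_filter]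
      refine ⟨Finset.mem_univ _, ?_⟩
      rw [map_sub, hv.2, hd]
      abel
  have h2 := Finset.card_eq_sum_card_fiberwise (s := (Finset.univ : Finset V))
    (t := (Finset.univ : Finset W)) (f := f) (fun _ _ => Finset.mem_coe.mpr (Finset.mem_univ _))
  rw [Finset.sum_congr rfl fun c' _ => h1 c', Finset.sum_const, smul_eq_mul, Finset.card_univ,
    Finset.card_univ] at h2
  rw [h2, mul_comm]

lemma card_hyp (A : Fin r → ℤ) (j : Fin r) (hj : (A j : ZMod p) ≠ 0) (c : ZMod p) :
    (Finset.univ.filter (fun w : Fin r → ZMod p => form A w = c)).card * p = p ^ r := by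
  let f : (Fin r → ZMod p) →+ ZMod p :=
    { toFun := form A, map_zero' := by simp [form], map_add' := form_add A }
  have hf : Function.Surjective f := by
    intro c
    refine ⟨Pi.single j (c / A j), ?_⟩
    change form A _ = c
    unfold form
    rw [Finset.sum_eq_single j]
    · rw [Pi.single_eq_same]
      field_simp
    · intro b _ hb
      rw [Pi.single_eq_of_ne hb, mul_zero]
    · intro h
      exact absurd (Finset.mem_univ j) h
  have h := card_fiber f hf c
  rw [ZMod.card, Fintype.card_pi_const, ZMod.card] at h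
  exact h

lemma card_hyp2 (A B : Fin r → ℤ) (j j' : Fin r)
    (hD : (A j : ZMod p) * B j' - A j' * B j ≠ 0) (c d : ZMod p) :
    (Finset.univ.filter (fun w : Fin r → ZMod p => form A w = c ∧ form B w = d)).card * p ^ 2 =
      p ^ r := by
  have hjj : j ≠ j' := by
    rintro rfl
    apply hD
    ring
  let f : (Fin r → ZMod p) →+ ZMod p × ZMod p :=
    { toFun := fun w => (form A w, form B w), map_zero' := by simp [form]
      map_add' := fun w w' => by rw [form_add, form_add]; rfl }
  have hf : Function.Surjective f := by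
    rintro ⟨c, d⟩
    set D : ZMod p := (A j : ZMod p) * B j' - A j' * B j with hDdef
    refine ⟨Pi.single j ((c * B j' - d * A j') / D) + Pi.single j' ((d * A j - c * B j) / D), ?_⟩
    change (form A _, form B _) = (c, d)
    have key : ∀ (E : Fin r → ℤ) (x y : ZMod p),
        form E (Pi.single j x + Pi.single j' y : Fin r → ZMod p) =
          (E j : ZMod p) * x + (E j' : ZMod p) * y := by
      intro E x y
      rw [form_add]
      congr 1
      · unfold form
        rw [Finset.sum_eq_single j]
        · rw [Pi.single_eq_same]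
        · intro b _ hb
          rw [Pi.single_eq_of_ne hb, mul_zero]
        · intro h
          exact absurd (Finset.mem_univ j) h
      · unfold form
        rw [Finset.sum_eq_single j']
        · rw [Pi.single_eq_same]
        · intro b _ hb
          rw [Pi.single_eq_of_ne hb, mul_zero]
        · intro h
          exact absurd (Finset.mem_univ j') h
    rw [key, key]
    ext
    · show (A j : ZMod p) * ((c * B j' - d * A j') / D) + A j' * ((d * A j - c * B j) / D) = c
      field_simp
      rw [hDdef]; ring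
    · show (B j : ZMod p) * ((c * B j' - d * A j') / D) + B j' * ((d * A j - c * B j) / D) = d
      field_simp
      rw [hDdef]; ring
  have h := card_fiber f hf (c, d)
  rw [Fintype.card_prod, ZMod.card, Fintype.card_pi_const, ZMod.card] at h
  have h2 : (Finset.univ.filter (fun w : Fin r → ZMod p => f w = (c, d))) =
      Finset.univ.filter (fun w : Fin r → ZMod p => form A w = c ∧ form B w = d) := by
    apply Finset.filter_congr
    intro w _
    change (form A w, form B w) = (c, d) ↔ _
    rw [Prod.mk.injEq]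
  rw [h2] at h
  rw [← h]
  ring

end

end Pool.Agent.Q1.CV
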