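import Pool.Agent.Y961.JR.Abs
import Pool.Agent.TH915.PW.Crit
import Pool.Agent.Q1.CV.Classes

set_option autoImplicit false

/-! # The criterion for the values of pairwise independent linear forms at vectors of integers -/

namespace Pool.Agent.Q1.CV

open Finset Filter
open Pool.Agent.H256R2.SC (ff params survivors)
open Pool.Agent.TH915.PW (crt_small)
open Pool.Agent.Y961.JR (coverAbs)

open scoped Classical

lemma g_bounds (n : ℕ) (u p : ℕ) (L : ℝ) (hL : 1 ≤ L) (hp : L ^ 2 < p) (hu : (u : ℝ) ≤ L / 2) :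
    1 / (p : ℝ) * (1 - 1 / (2 * L)) ≤ ((p ^ n * (p - u) : ℕ) : ℝ) / (p : ℝ) ^ (n + 2) ∧
      ((p ^ n * (p - u) : ℕ) : ℝ) / (p : ℝ) ^ (n + 2) ≤ 1 / (p : ℝ) := by
  have hL0 : 0 < L := by linarith
  have hp0 : (0 : ℝ) < p := lt_trans (by positivity) hp
  have hu0 : (0 : ℝ) ≤ u := Nat.cast_nonneg _
  have hup : (u : ℝ) ≤ p := by nlinarith
  have hup' : u ≤ p := by exact_mod_cast hup
  have e1 : ((p ^ n * (p - u) : ℕ) : ℝ) / (p : ℝ) ^ (n + 2) = 1 / (p : ℝ) * (1 - u / p) := by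
    push_cast [Nat.cast_sub hup']
    rw [pow_add]
    field_simp
  have h1 : (u : ℝ) / p ≤ 1 / (2 * L) := by
    calc (u : ℝ) / p ≤ (L / 2) / L ^ 2 := div_le_div₀ (by positivity) hu (by positivity) hp.le
      _ = _ := by field_simp
  have h2 : 0 ≤ (u : ℝ) / p := by positivity
  rw [e1]
  constructor
  · apply mul_le_mul_of_nonneg_left _ (by positivity)
    linarith
  · calc 1 / (p : ℝ) * (1 - u / p) ≤ 1 / (p : ℝ) * 1 := by
          apply mul_le_mul_of_nonneg_left _ (by positivity)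
          linarith
      _ = _ := mul_one _

/-- values of linear forms at vectors of integers: the criterion -/
theorem critL {n : ℕ} {Λ : Type} [Fintype Λ] [Nonempty Λ] (A : Λ → Fin (n + 2) → ℤ)
    (e₀ : Fin (n + 2) → ℤ) (he : ∀ l, ∑ j, A l j * e₀ j = 1)
    (hAA : ∀ l l', l ≠ l' → ∃ j j', A l j * A l' j' - A l j' * A l' j ≠ 0) (C : ℝ) (hC : 1 ≤ C) :
    ∃ κ : ℝ, 0 < κ ∧ ∃ X₀ : ℝ, ∀ X : ℝ, X₀ ≤ X →
    κ * ff X + C ≤ (Real.log X) ^ 2 ∧ C ≤ κ * ff X ∧
    ∀ (ι : Type) (s : Finset ι) (v : ι → Fin (n + 2) → ℤ), s.Nonempty →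
    (∀ q : ℕ, 1 ≤ q → (q : ℝ) ≤ X ^ (2 / 5 : ℝ) →
      ∀ ρ : Fin (n + 2) → ℤ, |((s.filter (fun i => ∀ j, (q : ℤ) ∣ v i j - ρ j)).card : ℝ) -
        s.card / (q : ℝ) ^ (n + 2)| ≤ s.card * X ^ (-(2 * ((n + 2 : ℕ) : ℝ)))) →
    ∃ i ∈ s, ∀ l, ∀ m : ℤ, |(m : ℝ) - ((∑ j, A l j * v i j : ℤ) : ℝ)| ≤ κ * ff X + C →
      ∃ p : ℕ, p.Prime ∧ (p : ℝ) ≤ X ^ (1 / 10 : ℝ) ∧ (p : ℤ) ∣ m := by
  obtain ⟨c₀, hc₀, X₁, hcov⟩ := coverAbs
  set c₁ : ℝ := min c₀ (1 / 2) with hc₁'
  have hc₁ : 0 < c₁ := lt_min hc₀ (by norm_num)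
  have hc₁0 : c₁ ≤ c₀ := min_le_left _ _
  have hc₁2 : c₁ ≤ 1 / 2 := min_le_right _ _
  set N₀ : ℝ := (Fintype.card Λ : ℝ) with hN₀
  have hN₀0 : 0 < N₀ := by
    rw [hN₀]
    exact_mod_cast Fintype.card_pos
  set Bd : ℝ := ∑ l, ∑ l', ∑ j, ∑ j', |((A l j * A l' j' - A l j' * A l' j : ℤ) : ℝ)| with hBd
  have hBdle : ∀ l l' j j', |((A l j * A l' j' - A l j' * A l' j : ℤ) : ℝ)| ≤ Bd := by
    intro l l' j j'
    rw [hBd]
    have h0 : ∀ l l' j j', 0 ≤ |((A l j * A l' j' - A l j' * A l' j : ℤ) : ℝ)| :=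
      fun _ _ _ _ => abs_nonneg _
    refine le_trans ?_ (Finset.single_le_sum (f := fun l => ∑ l', ∑ j, ∑ j',
      |((A l j * A l' j' - A l j' * A l' j : ℤ) : ℝ)|) (fun l _ => Finset.sum_nonneg fun l' _ =>
      Finset.sum_nonneg fun j _ => Finset.sum_nonneg fun j' _ => h0 l l' j j')
      (Finset.mem_univ l))
    refine le_trans ?_ (Finset.single_le_sum (f := fun l' => ∑ j, ∑ j',
      |((A l j * A l' j' - A l j' * A l' j : ℤ) : ℝ)|) (fun l' _ =>
      Finset.sum_nonneg fun j _ => Finset.sum_nonneg fun j' _ => h0 l l' j j')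
      (Finset.mem_univ l'))
    refine le_trans ?_ (Finset.single_le_sum (f := fun j => ∑ j',
      |((A l j * A l' j' - A l j' * A l' j : ℤ) : ℝ)|) (fun j _ =>
      Finset.sum_nonneg fun j' _ => h0 l l' j j') (Finset.mem_univ j))
    exact Finset.single_le_sum (f := fun j' =>
      |((A l j * A l' j' - A l j' * A l' j : ℤ) : ℝ)|) (fun j' _ => h0 l l' j j')
      (Finset.mem_univ j')
  obtain ⟨c, hc, X₂, hpar⟩ := params survivors (c₁ / N₀) (by positivity)
  have hlogx : ∀ᶠ X : ℝ in atTop, Real.log X / 10 ≤ X ^ (1 / 10 : ℝ) := by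
    have h := (isLittleO_log_rpow_atTop (show (0 : ℝ) < 1 / 10 by norm_num)).def
      (show (0 : ℝ) < 1 by norm_num)
    filter_upwards [h, eventually_ge_atTop (1 : ℝ)] with X hX hX1
    rw [Real.norm_eq_abs, abs_of_nonneg (Real.log_nonneg hX1), Real.norm_eq_abs,
      abs_of_nonneg (Real.rpow_nonneg (by linarith) _)] at hX
    have := Real.log_nonneg hX1
    linarith
  obtain ⟨X₃, hX₃⟩ := eventually_atTop.mp hlogx
  have hL16 : ∀ᶠ X : ℝ in atTop, 160 * C + Bd ≤ Real.log X :=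
    Real.tendsto_log_atTop.eventually_ge_atTop _
  obtain ⟨X₄, hX₄⟩ := eventually_atTop.mp hL16
  have hBd0 : 0 ≤ Bd := by
    rw [hBd]
    positivity
  refine ⟨c / 4, by positivity, max (max X₁ X₂) (max X₃ (max X₄ 1)), ?_⟩
  intro X hX
  have hXX1 : X₁ ≤ X := ((le_max_left _ _).trans (le_max_left _ _)).trans hX
  have hXX2 : X₂ ≤ X := ((le_max_right _ _).trans (le_max_left _ _)).trans hX
  have hXX3 : X₃ ≤ X := ((le_max_left _ _).trans (le_max_right _ _)).trans hX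
  have hXX4 : X₄ ≤ X := (((le_max_left _ _).trans (le_max_right _ _)).trans
    (le_max_right _ _)).trans hX
  have hX1 : 1 ≤ X := (((le_max_right _ _).trans (le_max_right _ _)).trans
    (le_max_right _ _)).trans hX
  have hX0 : 0 < X := by linarith
  obtain ⟨hX1000, hLlog, hLge, hprim, b, hb1, hb2⟩ := hpar X hXX2
  have h3 := hX₃ X hXX3
  have h4 := hX₄ X hXX4
  set l : ℝ := Real.log X with hl
  have hl1 : 1 ≤ l := by nlinarith
  have hl160 : 160 * C ≤ l := by linarith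
  have hlBd : Bd < l ^ 2 := by nlinarith
  set L : ℕ := ⌊c * ff X⌋₊ with hL
  set Ny : ℕ := ⌊l / 10⌋₊ with hNy
  set P : ℕ := primorial Ny with hP
  set S : Finset ℕ := (Finset.range (Ny + 1)).filter Nat.Prime with hS
  have hPS : P = ∏ p ∈ S, p := rfl
  have hSp : ∀ p ∈ S, p.Prime := fun p hp => (Finset.mem_filter.mp hp).2
  have hSle : ∀ p ∈ S, (p : ℝ) ≤ l / 10 := by
    intro p hp
    have h5 := Finset.mem_range.mp (Finset.mem_filter.mp hp).1
    have h6 : (p : ℝ) ≤ Ny := by exact_mod_cast Nat.lt_succ_iff.mp h5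
    exact h6.trans (Nat.floor_le (by linarith))
  have hSmem : ∀ p : ℕ, p.Prime → (p : ℝ) ≤ l / 10 → p ∈ S := by
    intro p hp hpl
    rw [hS, Finset.mem_filter, Finset.mem_range]
    exact ⟨Nat.lt_succ_of_le (Nat.le_floor hpl), hp⟩
  have hPpos : 0 < P := primorial_pos _
  have hPr : (0 : ℝ) < P := by exact_mod_cast hPpos
  have hff : c * ff X < L + 1 := Nat.lt_floor_add_one _
  have hffL : (L : ℝ) ≤ c * ff X := by
    by_contra hcon
    push Not at hcon
    have h5 : L = 0 ∨ 0 < c * ff X := by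
      by_contra h6
      push Not at h6
      exact h6.1 (Nat.floor_of_nonpos h6.2)
    rcases h5 with h5 | h5
    · rw [h5] at hLge
      push_cast at hLge
      linarith
    · exact absurd (Nat.floor_le h5.le) (not_le.mpr hcon)
  have hL16 : 16 * C ≤ (L : ℝ) := by linarith
  refine ⟨by nlinarith, by linarith, ?_⟩
  intro ι s v hs hcount
  set h : ℕ := L / 2 with hh
  obtain ⟨r0, hr0'⟩ := crt_small S hSp (fun p => b p + (p - 1) * h)
  -- the candidates
  set 𝒜 : Finset ι := s.filter (fun i => ∀ j, (P : ℤ) ∣ v i j - r0 * e₀ j) with h𝒜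
  set U : Finset ℕ := (Finset.Icc 1 L).filter (fun k => ∀ p : ℕ, p.Prime →
          (p : ℝ) ≤ l / 10 → ¬ k ≡ b p [MOD p]) with hU
  have hcardU : (Fintype.card {k // k ∈ U} : ℝ) ≤ c₁ / N₀ * l := by
    rw [Fintype.card_coe]
    exact hb2
  have hcard1 : (Fintype.card (Λ × {k // k ∈ U}) : ℝ) ≤ c₁ * l := by
    rw [Fintype.card_prod]
    push_cast
    calc N₀ * (Fintype.card {k // k ∈ U} : ℝ) ≤ N₀ * (c₁ / N₀ * l) := by gcongr
      _ = c₁ * l := by field_simp
  have hcard : (Fintype.card (Λ × {k // k ∈ U}) : ℝ) ≤ c₀ * l := by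
    refine hcard1.trans ?_
    gcongr
  have hcard2 : (Fintype.card (Λ × {k // k ∈ U}) : ℝ) ≤ l / 2 := by
    refine hcard1.trans ?_
    nlinarith
  set res : {k // k ∈ U} → ℤ := fun k => (h : ℤ) - (k.1 : ℤ) with hres
  have hinj : ∀ p : ℕ, l ^ 2 < p → ∀ k k' : {k // k ∈ U}, k ≠ k' →
      ¬ ((p : ℤ) ∣ res k - res k') := by
    intro p hpl k k' hkk hd
    have h5 : res k - res k' = (k'.1 : ℤ) - (k.1 : ℤ) := by rw [hres]; ring
    rw [h5] at hd
    have hk := Finset.mem_Icc.mp (Finset.mem_filter.mp k.2).1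
    have hk' := Finset.mem_Icc.mp (Finset.mem_filter.mp k'.2).1
    have hLp : L < p := by
      have : (L : ℝ) < p := by linarith
      exact_mod_cast this
    have hne : k.1 ≠ k'.1 := fun h => hkk (Subtype.ext h)
    rcases lt_or_gt_of_ne hne with h6 | h6
    · have := Int.le_of_dvd (by omega) hd
      omega
    · have h7 : (p : ℤ) ∣ (k.1 : ℤ) - (k'.1 : ℤ) := by
        have := (dvd_neg (a := (p : ℤ))).mpr hd
        rwa [neg_sub] at this
      have := Int.le_of_dvd (by omega) h7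
      omega
  -- the classes
  have hclass : ∀ p : ℕ, ∃ R : Λ × {k // k ∈ U} → Finset (Fin (n + 2) → ZMod p),
      p.Prime → l ^ 2 < p →
      ((∀ c, (R c).card = p ^ n * (p - Fintype.card (Λ × {k // k ∈ U}))) ∧
      (∀ c c', c ≠ c' → Disjoint (R c) (R c')) ∧
      ∀ c, ∀ w ∈ R c, form (A c.1) w = res c.2) := by
    intro p
    by_cases hp : p.Prime ∧ l ^ 2 < p
    · have : Fact p.Prime := ⟨hp.1⟩
      obtain ⟨R, hR⟩ := exists_classes A res p (by
        intro l'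
        by_contra hcon
        push Not at hcon
        have h5 : ((∑ j, A l' j * e₀ j : ℤ) : ZMod p) = 0 := by
          push_cast
          apply Finset.sum_eq_zero
          intro j _
          rw [hcon j, zero_mul]
        rw [he l', Int.cast_one] at h5
        exact one_ne_zero h5) (by
        intro l₁ l₂ hne
        obtain ⟨j, j', hD⟩ := hAA l₁ l₂ hne
        refine ⟨j, j', ?_⟩
        intro h0
        have h5 : ((A l₁ j * A l₂ j' - A l₁ j' * A l₂ j : ℤ) : ZMod p) = 0 := by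
          push_cast
          exact h0
        rw [ZMod.intCast_zmod_eq_zero_iff_dvd] at h5
        have h6 := Int.le_of_dvd (abs_pos.mpr hD) ((dvd_abs _ _).mpr h5)
        have h7 : (p : ℝ) ≤ |((A l₁ j * A l₂ j' - A l₁ j' * A l₂ j : ℤ) : ℝ)| := by
          rw [← Int.cast_abs]
          exact_mod_cast h6
        linarith [hBdle l₁ l₂ j j', hp.2]) (by
        intro k k' hkk heq
        apply hinj p hp.2 k k' hkk
        rw [← ZMod.intCast_zmod_eq_zero_iff_dvd]
        push_cast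
        rw [heq, sub_self])
      exact ⟨R, fun _ _ => hR⟩
    · exact ⟨fun _ => ∅, fun h1 h2 => absurd ⟨h1, h2⟩ hp⟩
  choose R hR using hclass
  have hscard : (0 : ℝ) < s.card := by exact_mod_cast hs.card_pos
  have hNpos : (0 : ℝ) < s.card / (P : ℝ) ^ (n + 2) := by positivity
  have hXr0 : 0 < X ^ (-(2 * ((n + 2 : ℕ) : ℝ))) := Real.rpow_pos_of_pos hX0 _
  -- equidistribution of the candidates
  have hcountA : ∀ q : ℕ, Squarefree q → (q : ℝ) ≤ X ^ (1 / 4 : ℝ) →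
      (∀ p ∈ q.primeFactors, l ^ 2 < p) → ∀ ρ : Fin (n + 2) → ℤ,
      |((𝒜.filter (fun x => ∀ j, (q : ℤ) ∣ v x j - ρ j)).card : ℝ) -
        (s.card / (P : ℝ) ^ (n + 2)) / (q : ℝ) ^ (n + 2)| ≤ s.card * X ^ (-(2 * ((n + 2 : ℕ) : ℝ))) := by
    intro q hq hqX hqp ρ
    have hcop : Nat.Coprime P q := by
      rw [Nat.coprime_comm, hPS]
      apply Nat.Coprime.prod_right
      intro p hp
      rw [Nat.coprime_comm, Nat.Prime.coprime_iff_not_dvd (hSp p hp)]
      intro hd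
      have h5 : p ∈ q.primeFactors := Nat.mem_primeFactors.mpr ⟨hSp p hp, hd, hq.ne_zero⟩
      have h6 := hqp p h5
      have h7 := hSle p hp
      have h8 : l ≤ l ^ 2 := by nlinarith
      linarith
    have hq1 : 1 ≤ q := Nat.one_le_iff_ne_zero.mpr hq.ne_zero
    obtain ⟨u, w, huw⟩ := Nat.isCoprime_iff_coprime.2 hcop
    set r' : Fin (n + 2) → ℤ := fun j => (r0 * e₀ j) * (w * q) + ρ j * (u * P) with hr'
    have hiff : ∀ (j : Fin (n + 2)) (x : ℤ), ((P : ℤ) ∣ x - r0 * e₀ j ∧ (q : ℤ) ∣ x - ρ j) ↔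
        ((P * q : ℕ) : ℤ) ∣ x - r' j := by
      intro j x
      have e1 : r0 * e₀ j - r' j = (r0 * e₀ j - ρ j) * u * P := by
        simp only [hr']
        linear_combination (-((r0 : ℤ) * e₀ j)) * huw
      have e2 : ρ j - r' j = (ρ j - r0 * e₀ j) * w * q := by
        simp only [hr']
        linear_combination (-(ρ j : ℤ)) * huw
      constructor
      · rintro ⟨h5, h6⟩
        have h7 : (P : ℤ) ∣ x - r' j := by
          have : x - r' j = (x - r0 * e₀ j) + (r0 * e₀ j - ρ j) * u * P := by rw [← e1]; ring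
          rw [this]
          exact dvd_add h5 (Dvd.intro_left _ rfl)
        have h8 : (q : ℤ) ∣ x - r' j := by
          have : x - r' j = (x - ρ j) + (ρ j - r0 * e₀ j) * w * q := by rw [← e2]; ring
          rw [this]
          exact dvd_add h6 (Dvd.intro_left _ rfl)
        push_cast
        exact IsCoprime.mul_dvd (Nat.isCoprime_iff_coprime.2 hcop) h7 h8
      · intro h5
        push_cast at h5
        constructor
        · have h6 : (P : ℤ) ∣ x - r' j := (dvd_mul_right _ _).trans h5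
          have : x - r0 * e₀ j = (x - r' j) - (r0 * e₀ j - ρ j) * u * P := by rw [← e1]; ring
          rw [this]
          exact dvd_sub h6 (Dvd.intro_left _ rfl)
        · have h6 : (q : ℤ) ∣ x - r' j := (dvd_mul_left _ _).trans h5
          have : x - ρ j = (x - r' j) - (ρ j - r0 * e₀ j) * w * q := by rw [← e2]; ring
          rw [this]
          exact dvd_sub h6 (Dvd.intro_left _ rfl)
    have h5 : 𝒜.filter (fun x => ∀ j, (q : ℤ) ∣ v x j - ρ j) =
        s.filter (fun x => ∀ j, ((P * q : ℕ) : ℤ) ∣ v x j - r' j) := by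
      rw [h𝒜, Finset.filter_filter]
      apply Finset.filter_congr
      intro x _
      constructor
      · rintro ⟨a1, a2⟩ j
        exact (hiff j (v x j)).mp ⟨a1 j, a2 j⟩
      · intro a1
        exact ⟨fun j => ((hiff j (v x j)).mpr (a1 j)).1, fun j => ((hiff j (v x j)).mpr (a1 j)).2⟩
    rw [h5]
    have h6 : (s.card : ℝ) / (P : ℝ) ^ (n + 2) / (q : ℝ) ^ (n + 2) = s.card / ((P * q : ℕ) : ℝ) ^ (n + 2) := by
      push_cast
      rw [div_div, mul_pow]
    rw [h6]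
    apply hcount (P * q) (Nat.mul_pos hPpos hq1)
    push_cast
    calc (P : ℝ) * q ≤ X ^ (3 / 20 : ℝ) * X ^ (1 / 4 : ℝ) := by gcongr
      _ = X ^ (3 / 20 + 1 / 4 : ℝ) := by rw [Real.rpow_add hX0]
      _ = _ := by norm_num
  set Err₀ : ℝ := s.card * X ^ (-(2 * ((n + 2 : ℕ) : ℝ))) with hErr₀
  have hErr₀0 : 0 ≤ Err₀ := by positivity
  set Err : ℝ := Err₀ * (X ^ (1 / 4 : ℝ)) ^ (n + 1) with hErr
  have hErr0 : 0 ≤ Err := by positivity
  set G : ℕ → ℕ := fun p => p ^ n * (p - Fintype.card (Λ × {k // k ∈ U})) with hG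
  obtain ⟨i, hi, hcovi⟩ := hcov X hXX1 (Λ × {k // k ∈ U}) hcard
    (fun p => (G p : ℝ) / (p : ℝ) ^ (n + 2))
    (fun p _ hpl _ => g_bounds n _ p l hl1 hpl hcard2) ι 𝒜
    (fun x p => colG R (v x) p) (s.card / (P : ℝ) ^ (n + 2)) Err hNpos hErr0 (by
      have h5 : (P : ℝ) ^ (n + 2) ≤ X ^ ((3 / 20 : ℝ) * ((n + 2 : ℕ) : ℝ)) := by
        rw [Real.rpow_mul hX0.le, Real.rpow_natCast]
        exact pow_le_pow_left₀ hPr.le hprim (n + 2)
      have h6 : (X ^ (1 / 4 : ℝ)) ^ (n + 1) ≤ X ^ ((1 / 4 : ℝ) * ((n + 2 : ℕ) : ℝ)) := by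
        rw [Real.rpow_mul hX0.le, Real.rpow_natCast]
        exact pow_le_pow_right₀ (Real.one_le_rpow hX1 (by norm_num)) (by omega)
      have hr2 : (2 : ℝ) ≤ ((n + 2 : ℕ) : ℝ) := by
        push_cast; linarith [(Nat.cast_nonneg n : (0 : ℝ) ≤ n)]
      rw [hErr, hErr₀, div_mul_eq_mul_div, le_div_iff₀ (by positivity)]
      calc (s.card : ℝ) * X ^ (-(2 * ((n + 2 : ℕ) : ℝ))) * (X ^ (1 / 4 : ℝ)) ^ (n + 1) * (P : ℝ) ^ (n + 2)
          ≤ (s.card : ℝ) * X ^ (-(2 * ((n + 2 : ℕ) : ℝ))) * X ^ ((1 / 4 : ℝ) * ((n + 2 : ℕ) : ℝ)) * X ^ ((3 / 20 : ℝ) * ((n + 2 : ℕ) : ℝ)) := by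
            gcongr
        _ = (s.card : ℝ) * X ^ (-(2 * ((n + 2 : ℕ) : ℝ)) + (1 / 4 : ℝ) * ((n + 2 : ℕ) : ℝ) + (3 / 20 : ℝ) * ((n + 2 : ℕ) : ℝ)) := by
            rw [Real.rpow_add hX0, Real.rpow_add hX0]; ring
        _ ≤ (s.card : ℝ) * X ^ (-(2 / 5) : ℝ) := by
            apply mul_le_mul_of_nonneg_left _ hscard.le
            apply Real.rpow_le_rpow_of_exponent_le hX1
            nlinarith) (by
      intro S' hS' hS'Q D hD
      have h5 := countG 𝒜 v R G (s.card / (P : ℝ) ^ (n + 2)) Err₀ (X ^ (1 / 4 : ℝ)) (l ^ 2)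
        hcountA S' ∅ (fun p hp => ⟨(hS' p hp).1, (hS' p hp).2.1⟩)
        (fun p hp => ⟨(hR p (hS' p hp).1 (hS' p hp).2.1).1,
          (hR p (hS' p hp).1 (hS' p hp).2.1).2.1⟩) (by simp) (Finset.disjoint_empty_right _)
        (by simpa using hS'Q) D hD (fun _ _ => 0)
      have h6 : (𝒜.filter (fun x => (∀ p ∈ S', colG R (v x) p = D p) ∧
          ∀ p ∈ (∅ : Finset ℕ), ∀ j, (p : ℤ) ∣ v x j - 0)) =
          𝒜.filter (fun x => ∀ p ∈ S', colG R (v x) p = D p) := by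
        apply Finset.filter_congr
        intro x _
        simp
      rw [h6, Finset.prod_empty, mul_one] at h5
      refine h5.trans ?_
      rw [hErr]
      apply mul_le_mul_of_nonneg_left _ hErr₀0
      calc ∏ p ∈ S', (G p : ℝ) ≤ ∏ p ∈ S', (p : ℝ) ^ (n + 1) := by
            apply Finset.prod_le_prod (fun _ _ => Nat.cast_nonneg _)
            intro p _
            rw [hG]
            push_cast
            rw [pow_succ]
            apply mul_le_mul_of_nonneg_left _ (by positivity)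
            exact_mod_cast Nat.sub_le _ _
        _ = (∏ p ∈ S', (p : ℝ)) ^ (n + 1) := Finset.prod_pow _ _ _
        _ ≤ _ := pow_le_pow_left₀ (Finset.prod_nonneg fun _ _ => Nat.cast_nonneg _) hS'Q _)
  rw [h𝒜, Finset.mem_filter] at hi
  refine ⟨i, hi.1, ?_⟩
  intro lam m hm
  set V : ℤ := ∑ j, A lam j * v i j with hV
  have hLh : (L : ℝ) ≤ 2 * h + 1 := by
    have : L ≤ 2 * h + 1 := by omega
    exact_mod_cast this
  have hLh' : 2 * (h : ℝ) ≤ L := by
    have : 2 * h ≤ L := by omega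
    exact_mod_cast this
  have hm' := abs_le.mp hm
  have hk1 : (1 : ℤ) ≤ m - V + h := by
    have : (0 : ℝ) < ((m - V + h : ℤ) : ℝ) := by
      push_cast
      linarith [hm'.1]
    have : (0 : ℤ) < m - V + h := by exact_mod_cast this
    omega
  have hk2 : m - V + h ≤ L := by
    have : ((m - V + h : ℤ) : ℝ) ≤ ((L : ℤ) : ℝ) := by
      push_cast
      linarith [hm'.2]
    exact_mod_cast this
  obtain ⟨k, hk⟩ : ∃ k : ℕ, (k : ℤ) = m - V + h := ⟨(m - V + h).toNat, by omega⟩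
  have hkIcc : k ∈ Finset.Icc 1 L := by
    rw [Finset.mem_Icc]
    omega
  by_cases hkU : k ∈ U
  · obtain ⟨p, hp, hpl, hpX, hd⟩ := hcovi (lam, ⟨k, hkU⟩)
    refine ⟨p, hp, hpX, ?_⟩
    obtain ⟨_, hdis, hform⟩ := hR p hp hpl
    have hd' := hform _ _ ((colG_eq hdis).mp hd)
    simp only at hd'
    have h5 : ((V - res ⟨k, hkU⟩ : ℤ) : ZMod p) = 0 := by
      push_cast
      rw [← hd', hV]
      push_cast
      unfold form red
      exact sub_self _
    rw [ZMod.intCast_zmod_eq_zero_iff_dvd] at h5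
    have : V - res ⟨k, hkU⟩ = m := by
      rw [hres]
      simp only
      omega
    rwa [this] at h5
  · have h5 : ∃ p : ℕ, p.Prime ∧ (p : ℝ) ≤ l / 10 ∧ k ≡ b p [MOD p] := by
      by_contra hcon
      push Not at hcon
      exact hkU (Finset.mem_filter.mpr ⟨hkIcc, hcon⟩)
    obtain ⟨p, hp, hpl, hkb⟩ := h5
    refine ⟨p, hp, hpl.trans h3, ?_⟩
    have hpS := hSmem p hp hpl
    have h6 : (p : ℤ) ∣ (r0 : ℤ) + ((b p : ℤ) + ((p : ℤ) - 1) * h) := by
      have h7 := Int.natCast_dvd_natCast.mpr (hr0' p hpS)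
      push_cast [Nat.cast_sub hp.one_le] at h7
      exact h7
    have h7 : (p : ℤ) ∣ V - r0 := by
      have e1 : V - r0 = ∑ j, A lam j * (v i j - r0 * e₀ j) := by
        rw [hV]
        have e2 : ∀ j, A lam j * (v i j - r0 * e₀ j) = A lam j * v i j - r0 * (A lam j * e₀ j) :=
          fun j => by ring
        rw [Finset.sum_congr rfl fun j _ => e2 j, Finset.sum_sub_distrib, ← Finset.mul_sum, he,
          mul_one]
      rw [e1]
      apply Finset.dvd_sum
      intro j _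
      apply Dvd.dvd.mul_left
      refine dvd_trans ?_ (hi.2 j)
      rw [hPS]
      exact Int.natCast_dvd_natCast.mpr (Finset.dvd_prod_of_mem _ hpS)
    have h8 : (p : ℤ) ∣ (k : ℤ) - b p := by
      have := (Nat.modEq_iff_dvd.mp hkb)
      rw [← neg_sub]
      exact (dvd_neg).mpr this
    have h9 : m = (V - r0) + ((r0 : ℤ) + ((b p : ℤ) + ((p : ℤ) - 1) * h)) +
        ((k : ℤ) - b p) - p * h := by
      rw [hk]; ring
    rw [h9]
    exact dvd_sub (dvd_add (dvd_add h7 h6) h8) (Dvd.intro _ rfl)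

end Pool.Agent.Q1.CV
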