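import Pool.Agent.Y961.JR.ExpJ
import Pool.Agent.Y961.JR.ScaledJ
import Pool.Agent.Q1.CV.CritL

set_option autoImplicit false

/-! # The criterion for linear forms in terms of exponential sums -/

namespace Pool.Agent.Q1.CV

open Finset Filter
open Pool.Agent.H469R2.NK (e norm_e e_add)
open Pool.Agent.H256R2.SC (ff)
open Pool.Agent.Y961.JR (ev_small ev_bounds discJ ff_scaled)
open Pool.Agent.W147.PS (ff_compare ev_pow)

lemma no_primeL (κ C X : ℝ) (h1 : κ * ff X + C ≤ (Real.log X) ^ 2) (hC : 0 ≤ C)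
    (h2 : (Real.log X) ^ 2 ≤ X / 2)
    (h3 : X ^ (1 / 10 : ℝ) < X / 2) (y : ℝ) (hy : X ≤ y) (V : ℤ) (hV : |y - V| ≤ C)
    (h : ∀ m : ℤ, |(m : ℝ) - V| ≤ κ * ff X + C →
      ∃ p : ℕ, p.Prime ∧ (p : ℝ) ≤ X ^ (1 / 10 : ℝ) ∧ (p : ℤ) ∣ m) (q : ℕ) (hq : q.Prime) :
    κ * ff X < |(q : ℝ) - y| := by
  by_contra hcon
  push Not at hcon
  have h5 : |((q : ℤ) : ℝ) - V| ≤ κ * ff X + C := by
    have h9 := abs_le.mp hcon
    have h10 := abs_le.mp hV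
    push_cast
    rw [abs_le]
    constructor <;> linarith [h9.1, h9.2, h10.1, h10.2]
  obtain ⟨p, hp, hpX, hpd⟩ := h q h5
  have h6 : p = q := (Nat.prime_dvd_prime_iff_eq hp hq).mp (by exact_mod_cast hpd)
  rw [h6] at hpX
  have h8 := abs_le.mp hcon
  linarith [h8.1]

/-- the criterion for linear forms in real numbers together with an integer -/
theorem crit_exp1L {n : ℕ} {Λ : Type} [Fintype Λ] [Nonempty Λ] (A : Λ → Fin (n + 2) → ℤ)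
    (e₀ : Fin (n + 2) → ℤ) (he : ∀ l, ∑ j, A l j * e₀ j = 1)
    (hAA : ∀ l l', l ≠ l' → ∃ j j', A l j * A l' j' - A l j' * A l' j ≠ 0) :
    ∃ κ : ℝ, 0 < κ ∧ ∃ X₀ : ℝ, ∀ X : ℝ, X₀ ≤ X →
    ∀ (ι : Type) (s : Finset ι) (u : ι → ℤ) (a : ι → Fin (n + 1) → ℝ), s.Nonempty →
    (∀ q : ℕ, 1 ≤ q → (q : ℝ) ≤ X ^ (2 / 5 : ℝ) → ∀ b : ℤ,
      |((s.filter (fun i => (q : ℤ) ∣ u i - b)).card : ℝ) - s.card / q| ≤
        s.card * X ^ (-(20 * (((n + 1 : ℕ) : ℝ) + 1) ^ 2)) ∧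
      ∀ h : Fin (n + 1) → ℤ, h ≠ 0 → (∀ j, |(h j : ℝ)| ≤ X ^ (10 * (n + 1 + 1))) →
      ‖∑ i ∈ s.filter (fun i => (q : ℤ) ∣ u i - b), e (∑ j, (h j : ℝ) * (a i j / q))‖ ≤
        s.card * X ^ (-(20 * (((n + 1 : ℕ) : ℝ) + 1) ^ 2))) →
    ∃ i ∈ s, ∀ l, ∀ y : ℝ, X ≤ y →
      |y - ((A l 0 : ℝ) * u i + ∑ j : Fin (n + 1), (A l j.succ : ℝ) * a i j)| ≤ 1 →
      ∀ q : ℕ, q.Prime → κ * ff X < |(q : ℝ) - y| := by
  set C : ℝ := 1 + ∑ l, ∑ j, |(A l j : ℝ)| with hC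
  have hC1 : 1 ≤ C := by
    have : 0 ≤ ∑ l, ∑ j, |(A l j : ℝ)| := by positivity
    rw [hC]; linarith
  obtain ⟨κ, hκ, X₁, h1⟩ := critL A e₀ he hAA C hC1
  have hr : 1 ≤ n + 1 := by omega
  obtain ⟨X₂, h2⟩ := eventually_atTop.mp (ev_bounds (n + 1) (n + 1 + 1) hr (by omega))
  obtain ⟨X₃, h3⟩ := eventually_atTop.mp ev_small
  refine ⟨κ, hκ, max X₁ (max X₂ X₃), ?_⟩
  intro X hX ι s u a hs hE
  obtain ⟨b1, b2⟩ := h2 X (((le_max_left _ _).trans (le_max_right _ _)).trans hX)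
  obtain ⟨c1, c2⟩ := h3 X (((le_max_right _ _).trans (le_max_right _ _)).trans hX)
  obtain ⟨hfl, hff, hcr⟩ := h1 X ((le_max_left _ _).trans hX)
  have hX0 : 0 < X := by linarith
  have hcast : (((n + 1 + 1 : ℕ) : ℝ)) = ((n + 1 : ℕ) : ℝ) + 1 := by push_cast; ring
  obtain ⟨i, hi, hi2⟩ := hcr ι s (fun i => Fin.cons (u i) (fun j => ⌊a i j⌋)) hs (by
    intro q hq hqX ρ
    have hq0 : (0 : ℝ) < q := by exact_mod_cast hq
    have hq1 : (1 : ℝ) ≤ q := by exact_mod_cast hq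
    obtain ⟨k1, k2, k3, k4⟩ := b2 q hq hqX s.card (Nat.cast_nonneg _)
    obtain ⟨g1, g2⟩ := hE q hq hqX (ρ 0)
    set s' := s.filter (fun i => (q : ℤ) ∣ u i - ρ 0) with hs'
    rw [hcast] at k4
    have hd := discJ hr s' a ⌈X ^ (3 * (n + 1 + 1))⌉₊ q k1 hq k2
      (s.card * X ^ (-(20 * (((n + 1 : ℕ) : ℝ) + 1) ^ 2)))
      (by positivity) (fun h hh hh2 => g2 h hh (fun j => by
        have h5 : ((h j).natAbs : ℝ) < ((⌈X ^ (3 * (n + 1 + 1))⌉₊ : ℕ) : ℝ) ^ 3 := by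
          exact_mod_cast hh2 j
        have h6 : |(h j : ℝ)| = ((h j).natAbs : ℝ) := by
          rw [Nat.cast_natAbs]; push_cast; rfl
        rw [h6]
        exact h5.le.trans k3)) (fun j => ρ j.succ)
    have hfil : (s.filter (fun i => ∀ j, (q : ℤ) ∣
        (Fin.cons (u i) (fun j => ⌊a i j⌋) : Fin (n + 1 + 1) → ℤ) j - ρ j)) =
        s'.filter (fun i => ∀ j : Fin (n + 1), (q : ℤ) ∣ ⌊a i j⌋ - ρ j.succ) := by
      rw [hs', Finset.filter_filter]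
      apply Finset.filter_congr
      intro i _
      rw [Fin.forall_fin_succ]
      simp only [Fin.cons_zero, Fin.cons_succ]
    rw [hfil]
    have hcard : (s'.card : ℝ) ≤ s.card := by
      exact_mod_cast Finset.card_filter_le _ _
    have t1 : (q : ℝ) ^ (n + 1) * ((3 * ((n + 1 : ℕ) : ℝ) + 4) * s'.card /
        (⌈X ^ (3 * (n + 1 + 1))⌉₊ : ℕ) + ((⌈X ^ (3 * (n + 1 + 1))⌉₊ : ℕ) : ℝ) ^ (3 * (n + 1)) *
          (s.card * X ^ (-(20 * (((n + 1 : ℕ) : ℝ) + 1) ^ 2)))) ≤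
        s.card * X ^ (-(2 * (((n + 1 : ℕ) : ℝ) + 1))) / 2 := by
      refine le_trans ?_ k4
      gcongr
    have t2 : |(s'.card : ℝ) / (q : ℝ) ^ (n + 1) - s.card / (q : ℝ) ^ (n + 1 + 1)| ≤
        s.card * X ^ (-(2 * (((n + 1 : ℕ) : ℝ) + 1))) / 2 := by
      have e1 : (s'.card : ℝ) / (q : ℝ) ^ (n + 1) - s.card / (q : ℝ) ^ (n + 1 + 1) =
          (s'.card - s.card / q) / (q : ℝ) ^ (n + 1) := by
        rw [pow_succ (q : ℝ) (n + 1)]
        field_simp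
      have hqr : 1 ≤ (q : ℝ) ^ (n + 1) := one_le_pow₀ hq1
      rw [e1, abs_div, abs_of_pos (show (0 : ℝ) < (q : ℝ) ^ (n + 1) by positivity)]
      refine (div_le_self (abs_nonneg _) hqr).trans (g1.trans ?_)
      rw [mul_div_assoc]
      apply mul_le_mul_of_nonneg_left _ (Nat.cast_nonneg _)
      have hr1 : (1 : ℝ) ≤ ((n + 1 : ℕ) : ℝ) := by exact_mod_cast hr
      calc X ^ (-(20 * (((n + 1 : ℕ) : ℝ) + 1) ^ 2)) ≤
            X ^ (-(2 * (((n + 1 : ℕ) : ℝ) + 1)) + (-1)) := by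
            apply Real.rpow_le_rpow_of_exponent_le (by linarith)
            nlinarith
        _ = X ^ (-(2 * (((n + 1 : ℕ) : ℝ) + 1))) * X ^ (-1 : ℝ) := Real.rpow_add hX0 _ _
        _ ≤ X ^ (-(2 * (((n + 1 : ℕ) : ℝ) + 1))) * (1 / 2) := by
            apply mul_le_mul_of_nonneg_left _ (Real.rpow_nonneg hX0.le _)
            rw [Real.rpow_neg_one, ← one_div]
            exact one_div_le_one_div_of_le (by norm_num) (by linarith)
        _ = _ := by ring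
    have hcast2 : (((n + 2 : ℕ) : ℝ)) = ((n + 1 : ℕ) : ℝ) + 1 := by push_cast; ring
    rw [hcast2]
    have t3 := hd.trans t1
    have t4 := abs_le.mp t3
    have t5 := abs_le.mp t2
    rw [abs_le]
    constructor <;> linarith [t4.1, t4.2, t5.1, t5.2])
  refine ⟨i, hi, ?_⟩
  intro l y hy hyl
  refine no_primeL κ C X hfl (by linarith) c1 c2 y hy _ ?_ (hi2 l)
  have e1 : ((∑ j, A l j * (Fin.cons (u i) (fun j => ⌊a i j⌋) : Fin (n + 2) → ℤ) j : ℤ) : ℝ) =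
      (A l 0 : ℝ) * u i + ∑ j : Fin (n + 1), (A l j.succ : ℝ) * ⌊a i j⌋ := by
    rw [Fin.sum_univ_succ]
    push_cast
    simp only [Fin.cons_zero, Fin.cons_succ]
  rw [e1]
  have e2 : y - ((A l 0 : ℝ) * u i + ∑ j : Fin (n + 1), (A l j.succ : ℝ) * ⌊a i j⌋) =
      (y - ((A l 0 : ℝ) * u i + ∑ j : Fin (n + 1), (A l j.succ : ℝ) * a i j)) +
        ∑ j : Fin (n + 1), (A l j.succ : ℝ) * Int.fract (a i j) := by
    have : ∀ j : Fin (n + 1), (A l j.succ : ℝ) * Int.fract (a i j) =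
        (A l j.succ : ℝ) * a i j - (A l j.succ : ℝ) * ⌊a i j⌋ := by
      intro j
      rw [← Int.self_sub_floor]
      ring
    rw [Finset.sum_congr rfl fun j _ => this j, Finset.sum_sub_distrib]
    ring
  rw [e2]
  have e3 : |∑ j : Fin (n + 1), (A l j.succ : ℝ) * Int.fract (a i j)| ≤
      ∑ l, ∑ j, |(A l j : ℝ)| := by
    calc |∑ j : Fin (n + 1), (A l j.succ : ℝ) * Int.fract (a i j)|
        ≤ ∑ j : Fin (n + 1), |(A l j.succ : ℝ) * Int.fract (a i j)| :=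
          Finset.abs_sum_le_sum_abs _ _
      _ ≤ ∑ j : Fin (n + 1), |(A l j.succ : ℝ)| := by
          apply Finset.sum_le_sum
          intro j _
          rw [abs_mul, abs_of_nonneg (Int.fract_nonneg (a i j))]
          exact mul_le_of_le_one_right (abs_nonneg _) (Int.fract_lt_one _).le
      _ ≤ ∑ j, |(A l j : ℝ)| := by
          rw [Fin.sum_univ_succ (f := fun j => |(A l j : ℝ)|)]
          linarith [abs_nonneg (A l 0 : ℝ)]
      _ ≤ _ := Finset.single_le_sum (f := fun l => ∑ j, |(A l j : ℝ)|)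
          (fun l _ => Finset.sum_nonneg fun j _ => abs_nonneg _) (Finset.mem_univ l)
  refine (abs_add_le _ _).trans ?_
  rw [hC]
  linarith

/-- the same at the scale of a power of `M` -/
theorem crit_scaled1L {n : ℕ} {Λ : Type} [Fintype Λ] [Nonempty Λ] (A : Λ → Fin (n + 2) → ℤ)
    (e₀ : Fin (n + 2) → ℤ) (he : ∀ l, ∑ j, A l j * e₀ j = 1)
    (hAA : ∀ l l', l ≠ l' → ∃ j j', A l j * A l' j' - A l j' * A l' j ≠ 0)
    (η : ℝ) (h0 : 0 < η) (h1 : η ≤ 1) :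
    ∃ κ : ℝ, 0 < κ ∧ ∀ᶠ M : ℝ in atTop,
    ∀ (ι : Type) (s : Finset ι) (u : ι → ℤ) (a : ι → Fin (n + 1) → ℝ), s.Nonempty →
    (∀ q : ℕ, 1 ≤ q → (q : ℝ) ≤ M ^ η → ∀ b : ℤ,
      |((s.filter (fun i => (q : ℤ) ∣ u i - b)).card : ℝ) - s.card / q| ≤ s.card * M ^ (-η) ∧
      ∀ h : Fin (n + 1) → ℤ, h ≠ 0 → (∀ j, |(h j : ℝ)| ≤ M ^ η) →
      ‖∑ i ∈ s.filter (fun i => (q : ℤ) ∣ u i - b), e (∑ j, (h j : ℝ) * (a i j / q))‖ ≤
        s.card * M ^ (-η)) →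
    ∃ i ∈ s, ∀ l, ∀ y : ℝ, M ^ η ≤ y →
      |y - ((A l 0 : ℝ) * u i + ∑ j : Fin (n + 1), (A l j.succ : ℝ) * a i j)| ≤ 1 →
      ∀ q : ℕ, q.Prime → κ * ff M < |(q : ℝ) - y| := by
  obtain ⟨κ, hκ, X₀, hc⟩ := crit_exp1L A e₀ he hAA
  have hr1 : (1 : ℝ) ≤ ((n + 1 : ℕ) : ℝ) := by exact_mod_cast (show 1 ≤ n + 1 by omega)
  set r : ℝ := ((n + 1 : ℕ) : ℝ) with hr
  set θ : ℝ := η / (20 * (r + 1) ^ 2) with hθ
  have hr2 : (1 : ℝ) ≤ (r + 1) ^ 2 := one_le_pow₀ (by linarith)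
  have hθ0 : 0 < θ := by positivity
  have hθη : θ ≤ η := div_le_self h0.le (by linarith)
  have hθ1 : θ ≤ 1 := hθη.trans h1
  refine ⟨κ * (θ / 32), by positivity, ?_⟩
  filter_upwards [ff_compare θ hθ0 hθ1, (tendsto_rpow_atTop hθ0).eventually_ge_atTop X₀,
    eventually_ge_atTop (1 : ℝ)] with M hM hMX hM1
  intro ι s u a hs hE
  have hM0 : 0 < M := by linarith
  have hmono : ∀ x y : ℝ, x ≤ y → M ^ x ≤ M ^ y := fun x y h =>
    Real.rpow_le_rpow_of_exponent_le hM1 h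
  have hexp : (M ^ θ) ^ (-(20 * (r + 1) ^ 2)) = M ^ (-η) := by
    rw [← Real.rpow_mul hM0.le]
    congr 1
    rw [hθ]
    field_simp
  obtain ⟨i, hi, hi2⟩ := hc (M ^ θ) hMX ι s u a hs (by
    intro q hq hqX b
    obtain ⟨g1, g2⟩ := hE q hq (hqX.trans (by
      rw [← Real.rpow_mul hM0.le]
      apply hmono
      linarith)) b
    rw [hexp]
    refine ⟨g1, fun h hh hhX => g2 h hh fun j => (hhX j).trans ?_⟩
    rw [← Real.rpow_natCast, ← Real.rpow_mul hM0.le]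
    apply hmono
    have e0 : (((10 * (n + 1 + 1) : ℕ)) : ℝ) = 10 * (r + 1) := by rw [hr]; push_cast; ring
    rw [e0]
    have e1 : θ * (10 * (r + 1)) * (2 * (r + 1)) = η := by rw [hθ]; field_simp; norm_num
    have e2 : 0 ≤ θ * (10 * (r + 1)) := by positivity
    nlinarith)
  refine ⟨i, hi, fun l y hy hyl q hq => lt_of_le_of_lt ?_
    (hi2 l y ((hmono _ _ hθη).trans hy) hyl q hq)⟩
  exact ff_scaled κ θ M hκ hθ1 hM1 hM.2

end Pool.Agent.Q1.CV
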