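import Pool.Agent.Q1.CV.ExpL

set_option autoImplicit false

/-! # The criterion for linear forms in terms of exponential sums, without an integral coordinate -/

namespace Pool.Agent.Q1.CV

open Finset Filter
open Pool.Agent.H469R2.NK (e norm_e e_add)
open Pool.Agent.H256R2.SC (ff)
open Pool.Agent.Y961.JR (ev_small ev_bounds discJ ff_scaled)
open Pool.Agent.W147.PS (ff_compare ev_pow)

/-- the criterion for linear forms in real numbers -/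
theorem crit_expL {n : ℕ} {Λ : Type} [Fintype Λ] [Nonempty Λ] (A : Λ → Fin (n + 2) → ℤ)
    (e₀ : Fin (n + 2) → ℤ) (he : ∀ l, ∑ j, A l j * e₀ j = 1)
    (hAA : ∀ l l', l ≠ l' → ∃ j j', A l j * A l' j' - A l j' * A l' j ≠ 0) :
    ∃ κ : ℝ, 0 < κ ∧ ∃ X₀ : ℝ, ∀ X : ℝ, X₀ ≤ X →
    ∀ (ι : Type) (s : Finset ι) (a : ι → Fin (n + 2) → ℝ), s.Nonempty →
    (∀ q : ℕ, 1 ≤ q → (q : ℝ) ≤ X ^ (2 / 5 : ℝ) →
      ∀ h : Fin (n + 2) → ℤ, h ≠ 0 → (∀ j, |(h j : ℝ)| ≤ X ^ (10 * (n + 2))) →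
      ‖∑ i ∈ s, e (∑ j, (h j : ℝ) * (a i j / q))‖ ≤
        s.card * X ^ (-(20 * (((n + 2 : ℕ) : ℝ)) ^ 2))) →
    ∃ i ∈ s, ∀ l, ∀ y : ℝ, X ≤ y →
      |y - ∑ j : Fin (n + 2), (A l j : ℝ) * a i j| ≤ 1 →
      ∀ q : ℕ, q.Prime → κ * ff X < |(q : ℝ) - y| := by
  set C : ℝ := 1 + ∑ l, ∑ j, |(A l j : ℝ)| with hC
  have hC1 : 1 ≤ C := by
    have : 0 ≤ ∑ l, ∑ j, |(A l j : ℝ)| := by positivity
    rw [hC]; linarith
  obtain ⟨κ, hκ, X₁, h1⟩ := critL A e₀ he hAA C hC1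
  have hr : 1 ≤ n + 2 := by omega
  obtain ⟨X₂, h2⟩ := eventually_atTop.mp (ev_bounds (n + 2) (n + 2) hr le_rfl)
  obtain ⟨X₃, h3⟩ := eventually_atTop.mp ev_small
  refine ⟨κ, hκ, max X₁ (max X₂ X₃), ?_⟩
  intro X hX ι s a hs hE
  obtain ⟨b1, b2⟩ := h2 X (((le_max_left _ _).trans (le_max_right _ _)).trans hX)
  obtain ⟨c1, c2⟩ := h3 X (((le_max_right _ _).trans (le_max_right _ _)).trans hX)
  obtain ⟨hfl, hff, hcr⟩ := h1 X ((le_max_left _ _).trans hX)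
  have hX0 : 0 < X := by linarith
  obtain ⟨i, hi, hi2⟩ := hcr ι s (fun i j => ⌊a i j⌋) hs (by
    intro q hq hqX ρ
    obtain ⟨k1, k2, k3, k4⟩ := b2 q hq hqX s.card (Nat.cast_nonneg _)
    have hd := discJ hr s a ⌈X ^ (3 * (n + 2))⌉₊ q k1 hq k2
      (s.card * X ^ (-(20 * (((n + 2 : ℕ) : ℝ)) ^ 2)))
      (by positivity) (fun h hh hh2 => hE q hq hqX h hh (fun j => by
        have h5 : ((h j).natAbs : ℝ) < ((⌈X ^ (3 * (n + 2))⌉₊ : ℕ) : ℝ) ^ 3 := by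
          exact_mod_cast hh2 j
        have h6 : |(h j : ℝ)| = ((h j).natAbs : ℝ) := by
          rw [Nat.cast_natAbs]; push_cast; rfl
        rw [h6]
        exact h5.le.trans k3)) ρ
    refine hd.trans (k4.trans ?_)
    have : 0 ≤ (s.card : ℝ) * X ^ (-(2 * ((n + 2 : ℕ) : ℝ))) := by positivity
    linarith)
  refine ⟨i, hi, ?_⟩
  intro l y hy hyl
  refine no_primeL κ C X hfl (by linarith) c1 c2 y hy _ ?_ (hi2 l)
  have e1 : ((∑ j, A l j * ⌊a i j⌋ : ℤ) : ℝ) = ∑ j : Fin (n + 2), (A l j : ℝ) * ⌊a i j⌋ := by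
    push_cast
    rfl
  rw [e1]
  have e2 : y - ∑ j : Fin (n + 2), (A l j : ℝ) * ⌊a i j⌋ =
      (y - ∑ j : Fin (n + 2), (A l j : ℝ) * a i j) +
        ∑ j : Fin (n + 2), (A l j : ℝ) * Int.fract (a i j) := by
    have : ∀ j : Fin (n + 2), (A l j : ℝ) * Int.fract (a i j) =
        (A l j : ℝ) * a i j - (A l j : ℝ) * ⌊a i j⌋ := by
      intro j
      rw [← Int.self_sub_floor]
      ring
    rw [Finset.sum_congr rfl fun j _ => this j, Finset.sum_sub_distrib]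
    ring
  rw [e2]
  have e3 : |∑ j : Fin (n + 2), (A l j : ℝ) * Int.fract (a i j)| ≤
      ∑ l, ∑ j, |(A l j : ℝ)| := by
    calc |∑ j : Fin (n + 2), (A l j : ℝ) * Int.fract (a i j)|
        ≤ ∑ j : Fin (n + 2), |(A l j : ℝ) * Int.fract (a i j)| :=
          Finset.abs_sum_le_sum_abs _ _
      _ ≤ ∑ j : Fin (n + 2), |(A l j : ℝ)| := by
          apply Finset.sum_le_sum
          intro j _
          rw [abs_mul, abs_of_nonneg (Int.fract_nonneg (a i j))]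
          exact mul_le_of_le_one_right (abs_nonneg _) (Int.fract_lt_one _).le
      _ ≤ _ := Finset.single_le_sum (f := fun l => ∑ j, |(A l j : ℝ)|)
          (fun l _ => Finset.sum_nonneg fun j _ => abs_nonneg _) (Finset.mem_univ l)
  refine (abs_add_le _ _).trans ?_
  rw [hC]
  linarith

/-- the same at the scale of a power of `M` -/
theorem crit_scaledL {n : ℕ} {Λ : Type} [Fintype Λ] [Nonempty Λ] (A : Λ → Fin (n + 2) → ℤ)
    (e₀ : Fin (n + 2) → ℤ) (he : ∀ l, ∑ j, A l j * e₀ j = 1)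
    (hAA : ∀ l l', l ≠ l' → ∃ j j', A l j * A l' j' - A l j' * A l' j ≠ 0)
    (η : ℝ) (h0 : 0 < η) (h1 : η ≤ 1) :
    ∃ κ : ℝ, 0 < κ ∧ ∀ᶠ M : ℝ in atTop,
    ∀ (ι : Type) (s : Finset ι) (a : ι → Fin (n + 2) → ℝ), s.Nonempty →
    (∀ q : ℕ, 1 ≤ q → (q : ℝ) ≤ M ^ η → ∀ h : Fin (n + 2) → ℤ, h ≠ 0 →
      (∀ j, |(h j : ℝ)| ≤ M ^ η) →
      ‖∑ i ∈ s, e (∑ j, (h j : ℝ) * (a i j / q))‖ ≤ s.card * M ^ (-η)) →
    ∃ i ∈ s, ∀ l, ∀ y : ℝ, M ^ η ≤ y →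
      |y - ∑ j : Fin (n + 2), (A l j : ℝ) * a i j| ≤ 1 →
      ∀ q : ℕ, q.Prime → κ * ff M < |(q : ℝ) - y| := by
  obtain ⟨κ, hκ, X₀, hc⟩ := crit_expL A e₀ he hAA
  have hr1 : (1 : ℝ) ≤ ((n + 2 : ℕ) : ℝ) := by exact_mod_cast (show 1 ≤ n + 2 by omega)
  set r : ℝ := ((n + 2 : ℕ) : ℝ) with hr
  set θ : ℝ := η / (20 * r ^ 2) with hθ
  have hr2 : (1 : ℝ) ≤ r ^ 2 := one_le_pow₀ hr1
  have hθ0 : 0 < θ := by positivity
  have hθη : θ ≤ η := div_le_self h0.le (by linarith)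
  have hθ1 : θ ≤ 1 := hθη.trans h1
  refine ⟨κ * (θ / 32), by positivity, ?_⟩
  filter_upwards [ff_compare θ hθ0 hθ1, (tendsto_rpow_atTop hθ0).eventually_ge_atTop X₀,
    eventually_ge_atTop (1 : ℝ)] with M hM hMX hM1
  intro ι s a hs hE
  have hM0 : 0 < M := by linarith
  have hmono : ∀ x y : ℝ, x ≤ y → M ^ x ≤ M ^ y := fun x y h =>
    Real.rpow_le_rpow_of_exponent_le hM1 h
  obtain ⟨i, hi, hi2⟩ := hc (M ^ θ) hMX ι s a hs (by
    intro q hq hqX h hh hhX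
    refine (hE q hq (hqX.trans ?_) h hh (fun j => (hhX j).trans ?_)).trans (le_of_eq ?_)
    · rw [← Real.rpow_mul hM0.le]
      apply hmono
      linarith
    · rw [← Real.rpow_natCast, ← Real.rpow_mul hM0.le]
      apply hmono
      have e0 : (((10 * (n + 2) : ℕ)) : ℝ) = 10 * r := by rw [hr]; push_cast; ring
      rw [e0]
      have e1 : θ * (10 * r) * (2 * r) = η := by rw [hθ]; field_simp; norm_num
      have e2 : 0 ≤ θ * (10 * r) := by positivity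
      nlinarith
    · rw [← Real.rpow_mul hM0.le]
      congr 2
      rw [hθ]
      field_simp)
  refine ⟨i, hi, fun l y hy hyl q hq => lt_of_le_of_lt ?_
    (hi2 l y ((hmono _ _ hθη).trans hy) hyl q hq)⟩
  exact ff_scaled κ θ M hκ hθ1 hM1 hM.2

end Pool.Agent.Q1.CV
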