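import Pool.Agent.Y961.JR.GenMain

set_option autoImplicit false

/-! # Values of generalised polynomials at `t + i` in terms of their derivatives at `t` -/

namespace Pool.Agent.Q1.CV

open Finset Filter
open Pool.Agent.TH915.PW (pw pw_der lower_small)
open Pool.Agent.Y961.JR (Fam)

/-- Taylor's formula with a crude bound of the remainder -/
lemma taylor (K : ℕ) : ∀ (φ : ℕ → ℝ → ℝ) (u J B : ℝ),
    (∀ m t, u ≤ t → HasDerivAt (φ m) (φ (m + 1) t) t) →
    (∀ t, u ≤ t → t ≤ u + J → |φ K t| ≤ B) → ∀ h : ℝ, 0 ≤ h → h ≤ J →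
    |φ 0 (u + h) - ∑ m ∈ range K, φ m u * (h ^ m / (m.factorial : ℝ))| ≤ B * J ^ K := by
  induction K with
  | zero =>
    intro φ u J B _ hB h h0 h1
    have := hB (u + h) (by linarith) (by linarith)
    simpa using this
  | succ K ih =>
    intro φ u J B hder hB h h0 h1
    have hJ0 : 0 ≤ J := h0.trans h1
    have hB0 : 0 ≤ B := (abs_nonneg _).trans (hB u le_rfl (by linarith))
    have ihK := ih (fun m => φ (m + 1)) u J B (fun m t ht => hder (m + 1) t ht) hB
    set E : ℝ → ℝ := fun h => φ 0 (u + h) -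
      ∑ m ∈ range (K + 1), φ m u * (h ^ m / (m.factorial : ℝ)) with hE
    have hd : ∀ x : ℝ, 0 ≤ x → HasDerivAt E (φ 1 (u + x) -
        ∑ m ∈ range K, φ (m + 1) u * (x ^ m / (m.factorial : ℝ))) x := by
      intro x hx
      have h2 : HasDerivAt (fun h => φ 0 (u + h)) (φ 1 (u + x)) x := by
        have h3 := (hder 0 (u + x) (by linarith)).comp_const_add u x
        simpa using h3
      have h4 : HasDerivAt (fun h : ℝ => ∑ m ∈ range (K + 1), φ m u * (h ^ m / (m.factorial : ℝ)))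
          (∑ m ∈ range K, φ (m + 1) u * (x ^ m / (m.factorial : ℝ))) x := by
        have h5 : (fun h : ℝ => ∑ m ∈ range (K + 1), φ m u * (h ^ m / (m.factorial : ℝ))) =
            fun h : ℝ => (∑ m ∈ range K, φ (m + 1) u * (h ^ (m + 1) / ((m + 1).factorial : ℝ))) +
              φ 0 u := by
          funext h
          rw [Finset.sum_range_succ']
          simp
        rw [h5]
        apply HasDerivAt.add_const
        apply HasDerivAt.fun_sum
        intro m _
        have h6 : HasDerivAt (fun h : ℝ => h ^ (m + 1)) (((m + 1 : ℕ) : ℝ) * x ^ m) x := by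
          simpa using hasDerivAt_pow (m + 1) x
        have h7 := (h6.div_const ((m + 1).factorial : ℝ)).const_mul (φ (m + 1) u)
        have h8 : φ (m + 1) u * (((m + 1 : ℕ) : ℝ) * x ^ m / ((m + 1).factorial : ℝ)) =
            φ (m + 1) u * (x ^ m / (m.factorial : ℝ)) := by
          rw [Nat.factorial_succ]
          push_cast
          field_simp
        rw [← h8]
        exact h7
      exact h2.sub h4
    have hbound : ∀ x ∈ Set.Icc (0 : ℝ) J, ‖φ 1 (u + x) -
        ∑ m ∈ range K, φ (m + 1) u * (x ^ m / (m.factorial : ℝ))‖ ≤ B * J ^ K := by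
      intro x hx
      rw [Real.norm_eq_abs]
      exact ihK x hx.1 hx.2
    have hmv := (convex_Icc (0 : ℝ) J).norm_image_sub_le_of_norm_hasDerivWithin_le
      (f := E) (fun x hx => (hd x hx.1).hasDerivWithinAt) hbound
      (Set.left_mem_Icc.mpr hJ0) (Set.mem_Icc.mpr ⟨h0, h1⟩)
    have hE0 : E 0 = 0 := by
      rw [hE]
      simp only
      rw [Finset.sum_range_succ']
      simp
    rw [hE0, sub_zero, sub_zero, Real.norm_eq_abs, Real.norm_eq_abs, abs_of_nonneg h0] at hmv
    refine hmv.trans ?_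
    rw [pow_succ, ← mul_assoc]
    exact mul_le_mul_of_nonneg_left h1 (by positivity)

/-- exponents of the derivative of order `m` -/
noncomputable def Fm (F : Finset ℝ) (m : ℕ) : Finset ℝ := F.image (fun x => x - m)

/-- coefficients of the derivative of order `m`, divided by `m!` -/
noncomputable def am (a : ℝ → ℝ) (m : ℕ) (y : ℝ) : ℝ :=
  a (y + m) * (∏ j ∈ range m, (y + m - j)) / m.factorial

lemma sum_Fm (F : Finset ℝ) (a : ℝ → ℝ) (m : ℕ) (t : ℝ) :
    ∑ y ∈ Fm F m, am a m y * t ^ y = (∑ x ∈ F, pw (a x) x m t) / m.factorial := by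
  unfold Fm
  rw [Finset.sum_image (fun x _ y _ h => by simpa using h), Finset.sum_div]
  apply Finset.sum_congr rfl
  intro x _
  unfold am pw
  rw [sub_add_cancel]
  ring

/-- the values at `t + i`, up to an error of at most one -/
lemma shift_values (F : Finset ℝ) (a : ℝ → ℝ) (c : ℝ) (hle : ∀ x ∈ F, x ≤ c) (J : ℕ) :
    ∀ᶠ t : ℝ in atTop, ∀ i : ℕ, i ≤ J →
      |∑ x ∈ F, a x * (t + i) ^ x - ∑ m ∈ range (⌊c⌋₊ + 1),
        (i : ℝ) ^ m * ∑ y ∈ Fm F m, am a m y * t ^ y| ≤ 1 := by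
  set K : ℕ := ⌊c⌋₊ + 1 with hK
  have hcK : c < K := by
    rw [hK]
    push_cast
    exact Nat.lt_floor_add_one c
  have h1 := lower_small F a K (fun x hx => lt_of_le_of_lt (hle x hx) hcK) K
    (1 / ((J : ℝ) ^ K + 1)) (by positivity)
  obtain ⟨t₀, ht₀⟩ := eventually_atTop.mp h1
  filter_upwards [eventually_ge_atTop t₀, eventually_gt_atTop (0 : ℝ)] with t ht ht0
  intro i hi
  have hi' : (i : ℝ) ≤ J := by exact_mod_cast hi
  have h2 := taylor K (fun m t => ∑ x ∈ F, pw (a x) x m t) t J (1 / ((J : ℝ) ^ K + 1))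
    (fun m s hs => HasDerivAt.fun_sum fun x _ => pw_der (a x) x m s (by linarith))
    (fun s hs _ => by
      have h3 := ht₀ s (by linarith)
      simpa using h3) i (Nat.cast_nonneg i) hi'
  have h4 : ∑ x ∈ F, pw (a x) x 0 (t + i) = ∑ x ∈ F, a x * (t + i) ^ x := by
    apply Finset.sum_congr rfl
    intro x _
    unfold pw
    simp
  have h5 : ∑ m ∈ range K, (∑ x ∈ F, pw (a x) x m t) * ((i : ℝ) ^ m / (m.factorial : ℝ)) =
      ∑ m ∈ range K, (i : ℝ) ^ m * ∑ y ∈ Fm F m, am a m y * t ^ y := by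
    apply Finset.sum_congr rfl
    intro m _
    rw [sum_Fm]
    ring
  rw [h4, h5] at h2
  refine h2.trans ?_
  rw [one_div, inv_mul_le_iff₀ (by positivity)]
  linarith

/-- The `m`-th derivatives, `m ≤ c`, divided by `m!`, of generalised polynomials whose leading
exponents do not differ by integers, form a family with distinct leading exponents. -/
lemma fam_der {s : ℕ} (F : Fin s → Finset ℝ) (a : Fin s → ℝ → ℝ) (c : Fin s → ℝ)
    (hmem : ∀ k, c k ∈ F k) (hle : ∀ k, ∀ x ∈ F k, x ≤ c k) (hpos : ∀ k, 0 < a k (c k))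
    (hc : ∀ k, 0 < c k) (hnon : ∀ k, ∀ m : ℕ, c k ≠ m)
    (hdiff : ∀ k k', k ≠ k' → ∀ z : ℤ, c k - c k' ≠ z) {r : ℕ}
    (ε : Fin r ≃ Σ k : Fin s, Fin (⌊c k⌋₊ + 1)) :
    Fam (fun j => Fm (F (ε j).1) (ε j).2) (fun j => am (a (ε j).1) (ε j).2)
      (fun j => c (ε j).1 - ((ε j).2 : ℕ)) := by
  have hm : ∀ j : Fin r, (((ε j).2 : ℕ) : ℝ) < c (ε j).1 := by
    intro j
    have h1 : ((ε j).2 : ℕ) ≤ ⌊c (ε j).1⌋₊ := Nat.lt_succ_iff.mp (ε j).2.isLt
    have h2 : (((ε j).2 : ℕ) : ℝ) ≤ c (ε j).1 :=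
      (Nat.cast_le.mpr h1).trans (Nat.floor_le (hc _).le)
    exact lt_of_le_of_ne h2 (Ne.symm (hnon _ _))
  constructor
  · intro j
    exact Finset.mem_image_of_mem _ (hmem _)
  · intro j x hx
    obtain ⟨y, hy, rfl⟩ := Finset.mem_image.mp hx
    have := hle _ y hy
    linarith
  · intro j
    unfold am
    rw [sub_add_cancel]
    apply div_pos _ (by positivity)
    apply mul_pos (hpos _)
    apply Finset.prod_pos
    intro i hi
    have h1 : (i : ℝ) < ((ε j).2 : ℕ) := by exact_mod_cast Finset.mem_range.mp hi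
    have := hm j
    linarith
  · intro j
    have := hm j
    linarith
  · intro j m h
    apply hnon (ε j).1 (m + (ε j).2)
    push_cast
    linarith
  · intro j j' h
    have h : c (ε j).1 - (((ε j).2 : ℕ) : ℝ) = c (ε j').1 - (((ε j').2 : ℕ) : ℝ) := h
    apply ε.injective
    by_cases hk : (ε j).1 = (ε j').1
    · have h1 : c (ε j).1 = c (ε j').1 := by rw [hk]
      have h2 : (((ε j).2 : ℕ) : ℝ) = ((ε j').2 : ℕ) := by linarith
      have h3 : ((ε j).2 : ℕ) = ((ε j').2 : ℕ) := by exact_mod_cast h2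
      refine Sigma.ext hk ?_
      rw [Fin.heq_ext_iff (by rw [hk])]
      exact h3
    · exfalso
      apply hdiff _ _ hk (((ε j).2 : ℕ) - ((ε j').2 : ℕ) : ℤ)
      push_cast
      linarith

end Pool.Agent.Q1.CV
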