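import Pool.Agent.Q1.CV.ExpL
import Pool.Agent.Q1.CV.Taylor

set_option autoImplicit false

/-! # Consecutive values of generalised polynomials in long prime gaps -/

namespace Pool.Agent.Q1.CV

open Finset Filter
open Pool.Agent.H469R2.NK (e norm_e e_add)
open Pool.Agent.W147.PS (ff ff_compare ev_pow)
open Pool.Agent.Y961.JR (Fam gg gg_exp gg_zero val_lower exists_min_pos class_param)

open scoped Classical

section

variable {s : ℕ} (c : Fin s → ℝ) (J n : ℕ)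

/-- the indices of the derivatives -/
abbrev Idx : Type := Σ k : Fin s, Fin (⌊c k⌋₊ + 1)

/-- the indices of the linear forms -/
abbrev Lam : Type := Option {p : Fin s × Fin (J + 1) // ⌊c p.1⌋₊ = 0 → (p.2 : ℕ) = 0}

variable {c n}

lemma sum_idx {α : Type} [AddCommMonoid α] (ε : Fin (n + 1) ≃ Idx c) (g : Idx c → α) (k : Fin s) :
    ∑ j : Fin (n + 1), (if (ε j).1 = k then g (ε j) else 0) =
      ∑ m : Fin (⌊c k⌋₊ + 1), g ⟨k, m⟩ := by
  rw [Equiv.sum_comp ε (fun p => if p.1 = k then g p else 0), Fintype.sum_sigma,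
    Finset.sum_eq_single k]
  · exact Finset.sum_congr rfl fun m _ => if_pos rfl
  · intro k' _ hk'
    exact Finset.sum_eq_zero fun m _ => if_neg hk'
  · intro h
    exact absurd (Finset.mem_univ k) h

/-- the linear forms -/
noncomputable def AA (ε : Fin (n + 1) ≃ Idx c) (l : Lam c J) : Fin (n + 2) → ℤ :=
  Fin.cons (match l with | none => 1 | some _ => 0) (fun j => match l with
    | none => 0
    | some p => if (ε j).1 = p.1.1 then ((p.1.2 : ℕ) : ℤ) ^ ((ε j).2 : ℕ) else 0)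

/-- a vector at which all the forms are one -/
noncomputable def EE (ε : Fin (n + 1) ≃ Idx c) : Fin (n + 2) → ℤ :=
  Fin.cons 1 (fun j => if ((ε j).2 : ℕ) = 0 then 1 else 0)

lemma AA_EE (ε : Fin (n + 1) ≃ Idx c) (l : Lam c J) : ∑ j, AA J ε l j * EE ε j = 1 := by
  rw [Fin.sum_univ_succ]
  unfold AA EE
  simp only [Fin.cons_zero, Fin.cons_succ]
  match l with
  | none => simp
  | some p =>
    simp only [zero_mul, zero_add]
    obtain ⟨g, hg⟩ : ∃ g : Idx c → ℤ, ∀ x, g x = ((p.1.2 : ℕ) : ℤ) ^ (x.2 : ℕ) *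
        (if (x.2 : ℕ) = 0 then 1 else 0) := ⟨_, fun _ => rfl⟩
    have h1 : ∀ j : Fin (n + 1), (if (ε j).1 = p.1.1 then ((p.1.2 : ℕ) : ℤ) ^ ((ε j).2 : ℕ) else 0) *
        (if ((ε j).2 : ℕ) = 0 then 1 else 0) =
        if (ε j).1 = p.1.1 then g (ε j) else 0 := by
      intro j
      rw [ite_mul, zero_mul, hg]
    rw [Finset.sum_congr rfl fun j _ => h1 j, sum_idx ε g p.1.1, Fin.sum_univ_succ]
    simp [hg]

lemma AA_indep (ε : Fin (n + 1) ≃ Idx c) (l l' : Lam c J) (hll : l ≠ l') :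
    ∃ j j', AA J ε l j * AA J ε l' j' - AA J ε l j' * AA J ε l' j ≠ 0 := by
  have hS : ∀ (p : {p : Fin s × Fin (J + 1) // ⌊c p.1⌋₊ = 0 → (p.2 : ℕ) = 0}) (x : Idx c),
      AA J ε (some p) (ε.symm x).succ = if x.1 = p.1.1 then ((p.1.2 : ℕ) : ℤ) ^ (x.2 : ℕ) else 0 := by
    intro p x
    unfold AA
    simp only [Fin.cons_succ]
    have h1 : ∀ y : Idx c, y = x → (if y.1 = p.1.1 then ((p.1.2 : ℕ) : ℤ) ^ (y.2 : ℕ) else 0) =
        if x.1 = p.1.1 then ((p.1.2 : ℕ) : ℤ) ^ (x.2 : ℕ) else 0 := by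
      rintro _ rfl
      rfl
    exact h1 _ (Equiv.apply_symm_apply ε x)
  have hN : ∀ x : Idx c, AA J ε none (ε.symm x).succ = 0 := by
    intro x
    unfold AA
    simp only [Fin.cons_succ]
  have hN0 : AA J ε none 0 = 1 := by
    unfold AA
    simp only [Fin.cons_zero]
  have hS0 : ∀ p, AA J ε (some p) 0 = 0 := by
    intro p
    unfold AA
    simp only [Fin.cons_zero]
  match l, l' with
  | none, none => exact absurd rfl hll
  | none, some p =>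
    refine ⟨0, (ε.symm ⟨p.1.1, 0⟩).succ, ?_⟩
    rw [hN0, hS, hN, hS0]
    simp
  | some p, none =>
    refine ⟨0, (ε.symm ⟨p.1.1, 0⟩).succ, ?_⟩
    rw [hN0, hS, hN, hS0]
    simp
  | some p, some p' =>
    by_cases hk : p.1.1 = p'.1.1
    · have hi : (p.1.2 : ℕ) ≠ (p'.1.2 : ℕ) := by
        intro h
        apply hll
        congr 1
        exact Subtype.ext (Prod.ext hk (Fin.ext h))
      have hc0 : ⌊c p.1.1⌋₊ ≠ 0 := by
        intro h0
        have h1 := p.2 h0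
        have h2 := p'.2 (by rw [← hk]; exact h0)
        exact hi (h1.trans h2.symm)
      refine ⟨(ε.symm ⟨p.1.1, 0⟩).succ, (ε.symm ⟨p.1.1, ⟨1, by omega⟩⟩).succ, ?_⟩
      rw [hS, hS, hS, hS]
      simp only [hk, if_true, Fin.val_zero, pow_zero, pow_one, one_mul, mul_one]
      intro h
      apply hi
      have : ((p'.1.2 : ℕ) : ℤ) = ((p.1.2 : ℕ) : ℤ) := by linarith
      exact_mod_cast this.symm
    · refine ⟨(ε.symm ⟨p.1.1, 0⟩).succ, (ε.symm ⟨p'.1.1, 0⟩).succ, ?_⟩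
      rw [hS, hS, hS, hS]
      simp [hk, Ne.symm hk]

end

/-- **Consecutive values in long prime gaps.** -/
theorem consecutive {s : ℕ} (hs : 1 ≤ s) (F : Fin s → Finset ℝ) (a : Fin s → ℝ → ℝ)
    (c : Fin s → ℝ) (hmem : ∀ k, c k ∈ F k) (hle : ∀ k, ∀ x ∈ F k, x ≤ c k)
    (hpos : ∀ k, 0 < a k (c k)) (hc : ∀ k, 0 < c k) (hnon : ∀ k, ∀ m : ℕ, c k ≠ m)
    (hdiff : ∀ k k', k ≠ k' → ∀ z : ℤ, c k - c k' ≠ z) (J : ℕ) :
    ∃ κ : ℝ, 0 < κ ∧ ∃ δ : ℝ, 0 < δ ∧ ∃ M₀ : ℝ, ∀ M : ℝ, M₀ ≤ M →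
    ∃ n : ℕ, M < n ∧ (n : ℝ) ≤ M + M ^ (1 - δ) ∧ (∀ q : ℕ, q.Prime → κ * ff M < |(q : ℝ) - n|) ∧
      ∀ k, ∀ i : ℕ, i ≤ J → ∀ q : ℕ, q.Prime →
        κ * ff M < |(q : ℝ) - ∑ x ∈ F k, a k x * ((n : ℝ) + i) ^ x| := by
  obtain ⟨N, hN⟩ : ∃ N, Fintype.card (Idx c) = N + 1 := by
    have : 0 < Fintype.card (Idx c) := Fintype.card_pos_iff.mpr ⟨⟨⟨0, hs⟩, 0⟩⟩
    exact ⟨Fintype.card (Idx c) - 1, by omega⟩
  set ε : Fin (N + 1) ≃ Idx c := (Fintype.equivFinOfCardEq hN).symm with hε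
  set F' : Fin (N + 1) → Finset ℝ := fun j => Fm (F (ε j).1) (ε j).2 with hF'
  set a' : Fin (N + 1) → ℝ → ℝ := fun j => am (a (ε j).1) (ε j).2 with ha'
  set c' : Fin (N + 1) → ℝ := fun j => c (ε j).1 - ((ε j).2 : ℕ) with hc'
  have H : Fam F' a' c' := fam_der F a c hmem hle hpos hc hnon hdiff ε
  have hr : 1 ≤ N + 1 := by omega
  obtain ⟨η₀, hη₀, hη₀4, hexp⟩ := gg_exp hr H
  obtain ⟨η₁, hη₁, hη₁c⟩ := exists_min_pos hr (fun j => c' j / 2) (fun j => by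
    have := H.cpos j
    positivity)
  set η : ℝ := min η₀ η₁ with hη
  have hη0 : 0 < η := lt_min hη₀ hη₁
  have hηle : η ≤ η₀ := min_le_left _ _
  have hηle1 : η ≤ η₁ := min_le_right _ _
  obtain ⟨κ, hκ, hcr⟩ := crit_scaled1L (n := N) (AA J ε) (EE ε) (AA_EE J ε) (AA_indep J ε) η hη0
    (by linarith)
  refine ⟨κ, hκ, η₀, hη₀, ?_⟩
  obtain ⟨t₁, ht₁⟩ := eventually_atTop.mp (eventually_all.mpr (val_lower H))
  obtain ⟨t₂, ht₂⟩ := eventually_atTop.mp (eventually_all.mpr fun k =>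
    shift_values (F k) (a k) (c k) (hle k) J)
  have hev := hcr.and ((hexp η η₀ hη0 hηle le_rfl).and ((ev_pow η (1 - η₀) 2 (by linarith)).and
    ((ev_pow (1 - η₀) 1 2 (by linarith)).and ((ev_pow η 1 4 (by linarith)).and
      ((eventually_ge_atTop (max t₁ t₂)).and ((eventually_ge_atTop (1 : ℝ)).and
        ((tendsto_rpow_atTop (show 0 < 1 - η₀ by linarith)).eventually_ge_atTop 2)))))))
  obtain ⟨M₀, hM₀⟩ := eventually_atTop.mp hev
  refine ⟨M₀, ?_⟩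
  intro M hM
  obtain ⟨b1, b2, b3, b4, b5, b6, b7, b8⟩ := hM₀ M hM
  rw [Real.rpow_one] at b4 b5
  have hM0 : 0 < M := by linarith
  set Z : ℝ := M ^ (1 - η₀) with hZ
  set A : ℕ := ⌊M⌋₊ with hA
  set B : ℕ := ⌊M + Z⌋₊ with hB
  have hAM : (A : ℝ) ≤ M := Nat.floor_le hM0.le
  have hAM2 : M < A + 1 := Nat.lt_floor_add_one M
  have hBM : (B : ℝ) ≤ M + Z := Nat.floor_le (by linarith)
  have hBM2 : M + Z < B + 1 := Nat.lt_floor_add_one (M + Z)
  have hAB' : (A : ℝ) < B := by linarith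
  have hAB : A < B := by exact_mod_cast hAB'
  have hmemI : ∀ n ∈ Ioc A B, M < (n : ℝ) ∧ (n : ℝ) ≤ M + Z := by
    intro n hn
    rw [Finset.mem_Ioc] at hn
    have h1 : ((A + 1 : ℕ) : ℝ) ≤ n := by exact_mod_cast hn.1
    have h2 : (n : ℝ) ≤ B := by exact_mod_cast hn.2
    push_cast at h1
    constructor <;> linarith
  have hcard : ((Ioc A B).card : ℝ) = (B : ℝ) - A := by
    rw [Nat.card_Ioc, Nat.cast_sub hAB.le]
  have hZhalf : Z / 2 ≤ (Ioc A B).card := by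
    rw [hcard]; linarith
  have hmain : 1 ≤ ((Ioc A B).card : ℝ) * M ^ (-η) := by
    rw [Real.rpow_neg hM0.le]
    have h1 : 0 < M ^ η := Real.rpow_pos_of_pos hM0 _
    rw [← div_eq_mul_inv, le_div_iff₀ h1]
    linarith
  have hMη : M ^ η ≤ M := by
    calc M ^ η ≤ M ^ (1 : ℝ) := Real.rpow_le_rpow_of_exponent_le b7 (by linarith)
      _ = M := Real.rpow_one M
  obtain ⟨n, hn, hn2⟩ := b1 ℕ (Ioc A B) (fun n => (n : ℤ))
    (fun n j => ∑ x ∈ F' j, a' j x * (n : ℝ) ^ x) ⟨B, Finset.mem_Ioc.mpr ⟨hAB, le_rfl⟩⟩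
    (by
      intro q hq hqZ b
      obtain ⟨n₀, L, g1, g2, g3, g4, g5, g6⟩ := class_param A B q hq hAB.le b
      have hq0 : (0 : ℝ) < q := by exact_mod_cast hq
      constructor
      · rw [g5, hcard]
        exact g3.trans (by rw [← hcard]; exact hmain)
      · intro h hh hhZ
        rw [g6]
        have e1 : ∀ m : ℕ, (∑ j, (h j : ℝ) * ((∑ x ∈ F' j, a' j x *
            ((n₀ + q * m : ℕ) : ℝ) ^ x) / q)) = gg F' a' h 0 ((n₀ : ℝ) + q * m) / q := by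
          intro m
          rw [gg_zero, Finset.sum_div]
          apply Finset.sum_congr rfl
          intro j _
          push_cast
          ring
        simp_rw [e1]
        apply b2 h hh hhZ q hq hqZ n₀ L (Ioc A B).card
        · have : ((A + 1 : ℕ) : ℝ) ≤ n₀ := by exact_mod_cast g1
          push_cast at this
          linarith
        · have h1 : (n₀ : ℝ) ≤ A + q := by exact_mod_cast g2
          have h2 : (L : ℝ) * q ≤ (B - A) + q := by
            have h3 := (abs_le.mp g3).2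
            have h4 : (L : ℝ) ≤ ((B : ℝ) - A) / q + 1 := by linarith
            calc (L : ℝ) * q ≤ (((B : ℝ) - A) / q + 1) * q := mul_le_mul_of_nonneg_right h4 hq0.le
              _ = _ := by field_simp
          linarith
        · rw [← g5]
          exact Finset.card_filter_le _ _
        · exact hZhalf)
  obtain ⟨hMn, hnZ⟩ := hmemI n hn
  refine ⟨n, hMn, hnZ, fun q hq => ?_, fun k i hi q hq => ?_⟩
  · apply hn2 none (n : ℝ) (hMη.trans hMn.le) _ q hq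
    unfold AA
    simp
  · -- the value at `n + i`
    set y : ℝ := ∑ x ∈ F k, a k x * ((n : ℝ) + i) ^ x with hy
    have ht2 := ht₂ n (by linarith [le_max_right t₁ t₂]) k i hi
    -- lower bound
    have hylow : M ^ η ≤ y := by
      have h1 := ht₁ ((n : ℝ) + i) (by
        have := le_max_left t₁ t₂
        have : (0 : ℝ) ≤ i := Nat.cast_nonneg i
        linarith) (ε.symm ⟨k, 0⟩) M b7 (by
        have : (0 : ℝ) ≤ i := Nat.cast_nonneg i
        linarith) η hη0 (hηle1.trans (hη₁c _))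
      have h2 : ∑ x ∈ F' (ε.symm ⟨k, 0⟩), a' (ε.symm ⟨k, 0⟩) x * ((n : ℝ) + i) ^ x = y := by
        have h3 := sum_Fm (F k) (a k) 0 ((n : ℝ) + i)
        have h4 : ∀ z : Idx c, z = ⟨k, 0⟩ →
            ∑ x ∈ Fm (F z.1) z.2, am (a z.1) z.2 x * ((n : ℝ) + i) ^ x =
            ∑ x ∈ Fm (F k) 0, am (a k) 0 x * ((n : ℝ) + i) ^ x := by
          rintro _ rfl
          rfl
        rw [hF', ha']
        simp only
        rw [h4 _ (Equiv.apply_symm_apply ε _), h3, hy]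
        simp [Pool.Agent.TH915.PW.pw]
      rwa [h2] at h1
    -- the form
    have hform : ∀ p : {p : Fin s × Fin (J + 1) // ⌊c p.1⌋₊ = 0 → (p.2 : ℕ) = 0},
        (AA J ε (some p) 0 : ℝ) * ((n : ℤ) : ℝ) + ∑ j : Fin (N + 1), (AA J ε (some p) j.succ : ℝ) *
          (∑ x ∈ F' j, a' j x * (n : ℝ) ^ x) =
        ∑ m ∈ range (⌊c p.1.1⌋₊ + 1), (((p.1.2 : ℕ) : ℝ)) ^ m *
          ∑ y ∈ Fm (F p.1.1) m, am (a p.1.1) m y * (n : ℝ) ^ y := by
      intro p
      unfold AA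
      simp only [Fin.cons_zero, Fin.cons_succ, Int.cast_zero, zero_mul, zero_add]
      obtain ⟨g, hg⟩ : ∃ g : Idx c → ℝ, ∀ x, g x = (((p.1.2 : ℕ) : ℝ)) ^ (x.2 : ℕ) *
            ∑ y ∈ Fm (F x.1) x.2, am (a x.1) x.2 y * (n : ℝ) ^ y := ⟨_, fun _ => rfl⟩
      have h1 : ∀ j : Fin (N + 1), (((if (ε j).1 = p.1.1 then ((p.1.2 : ℕ) : ℤ) ^ ((ε j).2 : ℕ)
          else 0 : ℤ)) : ℝ) * (∑ x ∈ F' j, a' j x * (n : ℝ) ^ x) =
          if (ε j).1 = p.1.1 then g (ε j) else 0 := by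
        intro j
        rw [hg]
        split_ifs
        · push_cast
          rfl
        · simp
      rw [Finset.sum_congr rfl fun j _ => h1 j, sum_idx ε g p.1.1,
        Finset.sum_range (fun m => (((p.1.2 : ℕ) : ℝ)) ^ m *
          ∑ y ∈ Fm (F p.1.1) m, am (a p.1.1) m y * (n : ℝ) ^ y)]
      exact Finset.sum_congr rfl fun m _ => hg _
    by_cases hk0 : ⌊c k⌋₊ = 0
    · apply hn2 (some ⟨(k, 0), fun _ => rfl⟩) y hylow _ q hq
      rw [hform ⟨(k, 0), fun _ => rfl⟩]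
      simp only [Fin.val_zero]
      rw [hk0] at ht2 ⊢
      simpa using ht2
    · apply hn2 (some ⟨(k, ⟨i, by omega⟩), fun h => absurd h hk0⟩) y hylow _ q hq
      rw [hform ⟨(k, ⟨i, by omega⟩), fun h => absurd h hk0⟩]
      exact ht2

/-- the gap function tends to infinity -/
lemma ff_large (C : ℝ) : ∀ᶠ M : ℝ in atTop, C ≤ ff M := by
  have l1 := Real.tendsto_log_atTop
  have l2 := Real.tendsto_log_atTop.comp l1
  have l3 := Real.tendsto_log_atTop.comp l2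
  have l4 := Real.tendsto_log_atTop.comp l3
  filter_upwards [l1.eventually_ge_atTop (max C 0), l2.eventually_ge_atTop 1,
    l3.eventually_ge_atTop 1, l4.eventually_ge_atTop 1] with M h1 h2 h3 h4
  simp only [Function.comp_apply] at h2 h3 h4
  unfold ff
  set a := Real.log M
  set b := Real.log a
  set d := Real.log b with hd
  set g := Real.log d
  have ha : C ≤ a := (le_max_left _ _).trans h1
  have ha0 : 0 ≤ a := (le_max_right _ _).trans h1
  have hdb : d ≤ b := by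
    rw [hd]
    have := Real.log_le_sub_one_of_pos (show 0 < b by linarith)
    linarith
  have h5 : d ^ 2 ≤ b ^ 2 := pow_le_pow_left₀ (by linarith) hdb 2
  have h6 : 0 < d ^ 2 := by positivity
  rw [le_div_iff₀ h6]
  calc C * d ^ 2 ≤ a * b ^ 2 := mul_le_mul ha h5 h6.le ha0
    _ = a * b ^ 2 * 1 := (mul_one _).symm
    _ ≤ a * b ^ 2 * g := mul_le_mul_of_nonneg_left h4 (by positivity)

/-- the same with the neighbours of `n` -/
theorem consecutive' {s : ℕ} (hs : 1 ≤ s) (F : Fin s → Finset ℝ) (a : Fin s → ℝ → ℝ)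
    (c : Fin s → ℝ) (hmem : ∀ k, c k ∈ F k) (hle : ∀ k, ∀ x ∈ F k, x ≤ c k)
    (hpos : ∀ k, 0 < a k (c k)) (hc : ∀ k, 0 < c k) (hnon : ∀ k, ∀ m : ℕ, c k ≠ m)
    (hdiff : ∀ k k', k ≠ k' → ∀ z : ℤ, c k - c k' ≠ z) (J : ℕ) :
    ∃ κ : ℝ, 0 < κ ∧ ∃ δ : ℝ, 0 < δ ∧ ∃ M₀ : ℝ, ∀ M : ℝ, M₀ ≤ M →
    ∃ n : ℕ, M < n ∧ (n : ℝ) ≤ M + M ^ (1 - δ) ∧ ∀ i : ℕ, i ≤ J →
      (∀ q : ℕ, q.Prime → κ * ff M < |(q : ℝ) - (n + i)|) ∧
      ∀ k, ∀ q : ℕ, q.Prime → κ * ff M < |(q : ℝ) - ∑ x ∈ F k, a k x * ((n : ℝ) + i) ^ x| := by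
  obtain ⟨κ, hκ, δ, hδ, M₀, h⟩ := consecutive hs F a c hmem hle hpos hc hnon hdiff J
  obtain ⟨M₁, hM₁⟩ := eventually_atTop.mp (ff_large (2 * (J + 1) / κ))
  refine ⟨κ / 2, by positivity, δ, hδ, max M₀ M₁, fun M hM => ?_⟩
  obtain ⟨n, h1, h2, h3, h4⟩ := h M ((le_max_left _ _).trans hM)
  have h5 := hM₁ M ((le_max_right _ _).trans hM)
  rw [div_le_iff₀ hκ] at h5
  refine ⟨n, h1, h2, fun i hi => ⟨fun q hq => ?_, fun k q hq => ?_⟩⟩
  · have h6 := h3 q hq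
    have h7 : (i : ℝ) ≤ J := by exact_mod_cast hi
    have h8 : |(q : ℝ) - n| ≤ |(q : ℝ) - (n + i)| + i := by
      have e1 : (q : ℝ) - n = ((q : ℝ) - (n + i)) + i := by ring
      rw [e1]
      refine (abs_add_le _ _).trans ?_
      rw [abs_of_nonneg (show (0 : ℝ) ≤ (i : ℝ) from Nat.cast_nonneg i)]
    linarith
  · have h6 := h4 k i hi q hq
    have h7 : (0 : ℝ) ≤ J := Nat.cast_nonneg J
    linarith

end Pool.Agent.Q1.CV
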