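import Pool.Agent.Q1.CV.PrimeSums
import Pool.Agent.Q1.CV.ExpL2
import Pool.Agent.Q1.CV.Main

set_option autoImplicit false

/-! # Consecutive values of generalised polynomials from a prime number on -/

namespace Pool.Agent.Q1.CV

open Finset Filter
open Pool.Agent.H469R2.NK (e norm_e e_add)
open Pool.Agent.W147.PS (ff ff_compare ev_pow)
open Pool.Agent.Y961.JR (Fam val_lower exists_min_pos primes_gen)

open scoped Classical

section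

variable {s : ℕ} (c : Fin s → ℝ) (J : ℕ)

/-- the indices of the linear forms -/
abbrev LamP : Type := {p : Fin s × Fin (J + 1) // ⌊c p.1⌋₊ = 0 → (p.2 : ℕ) = 0}

variable {c} {R : ℕ}

lemma sum_idxP {α : Type} [AddCommMonoid α] (ε : Fin R ≃ Idx c) (g : Idx c → α) (k : Fin s) :
    ∑ j : Fin R, (if (ε j).1 = k then g (ε j) else 0) = ∑ m : Fin (⌊c k⌋₊ + 1), g ⟨k, m⟩ := by
  rw [Equiv.sum_comp ε (fun p => if p.1 = k then g p else 0), Fintype.sum_sigma,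
    Finset.sum_eq_single k]
  · exact Finset.sum_congr rfl fun m _ => if_pos rfl
  · intro k' _ hk'
    exact Finset.sum_eq_zero fun m _ => if_neg hk'
  · intro h
    exact absurd (Finset.mem_univ k) h

/-- the linear forms -/
noncomputable def AP (ε : Fin R ≃ Idx c) (p : LamP c J) (j : Fin R) : ℤ :=
  if (ε j).1 = p.1.1 then ((p.1.2 : ℕ) : ℤ) ^ ((ε j).2 : ℕ) else 0

/-- a vector at which all the forms are one -/
noncomputable def EP (ε : Fin R ≃ Idx c) (j : Fin R) : ℤ := if ((ε j).2 : ℕ) = 0 then 1 else 0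

lemma AP_EP (ε : Fin R ≃ Idx c) (p : LamP c J) : ∑ j, AP J ε p j * EP ε j = 1 := by
  unfold AP EP
  obtain ⟨g, hg⟩ : ∃ g : Idx c → ℤ, ∀ x, g x = ((p.1.2 : ℕ) : ℤ) ^ (x.2 : ℕ) *
      (if (x.2 : ℕ) = 0 then 1 else 0) := ⟨_, fun _ => rfl⟩
  have h1 : ∀ j : Fin R, (if (ε j).1 = p.1.1 then ((p.1.2 : ℕ) : ℤ) ^ ((ε j).2 : ℕ) else 0) *
      (if ((ε j).2 : ℕ) = 0 then 1 else 0) =
      if (ε j).1 = p.1.1 then g (ε j) else 0 := by
    intro j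
    rw [ite_mul, zero_mul, hg]
  rw [Finset.sum_congr rfl fun j _ => h1 j, sum_idxP ε g p.1.1, Fin.sum_univ_succ]
  simp [hg]

lemma AP_indep (ε : Fin R ≃ Idx c) (p p' : LamP c J) (hpp : p ≠ p') :
    ∃ j j', AP J ε p j * AP J ε p' j' - AP J ε p j' * AP J ε p' j ≠ 0 := by
  have hS : ∀ (p : LamP c J) (x : Idx c),
      AP J ε p (ε.symm x) = if x.1 = p.1.1 then ((p.1.2 : ℕ) : ℤ) ^ (x.2 : ℕ) else 0 := by
    intro p x
    unfold AP
    have h1 : ∀ y : Idx c, y = x → (if y.1 = p.1.1 then ((p.1.2 : ℕ) : ℤ) ^ (y.2 : ℕ) else 0) =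
        if x.1 = p.1.1 then ((p.1.2 : ℕ) : ℤ) ^ (x.2 : ℕ) else 0 := by
      rintro _ rfl
      rfl
    exact h1 _ (Equiv.apply_symm_apply ε x)
  by_cases hk : p.1.1 = p'.1.1
  · have hi : (p.1.2 : ℕ) ≠ (p'.1.2 : ℕ) := by
      intro h
      apply hpp
      exact Subtype.ext (Prod.ext hk (Fin.ext h))
    have hc0 : ⌊c p.1.1⌋₊ ≠ 0 := by
      intro h0
      have h1 := p.2 h0
      have h2 := p'.2 (by rw [← hk]; exact h0)
      exact hi (h1.trans h2.symm)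
    refine ⟨ε.symm ⟨p.1.1, 0⟩, ε.symm ⟨p.1.1, ⟨1, by omega⟩⟩, ?_⟩
    rw [hS, hS, hS, hS]
    simp only [hk, if_true, Fin.val_zero, pow_zero, pow_one, one_mul, mul_one]
    intro h
    apply hi
    have : ((p'.1.2 : ℕ) : ℤ) = ((p.1.2 : ℕ) : ℤ) := by linarith
    exact_mod_cast this.symm
  · refine ⟨ε.symm ⟨p.1.1, 0⟩, ε.symm ⟨p'.1.1, 0⟩, ?_⟩
    rw [hS, hS, hS, hS]
    simp [hk, Ne.symm hk]

end

/-- the theorem for short ranges, in dimension at least two -/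
theorem prime_consecutive_half {s : ℕ} (hs : 1 ≤ s) (F : Fin s → Finset ℝ) (a : Fin s → ℝ → ℝ)
    (c : Fin s → ℝ) (hmem : ∀ k, c k ∈ F k) (hle : ∀ k, ∀ x ∈ F k, x ≤ c k)
    (hpos : ∀ k, 0 < a k (c k)) (hc : ∀ k, 0 < c k) (hnon : ∀ k, ∀ m : ℕ, c k ≠ m)
    (hdiff : ∀ k k', k ≠ k' → ∀ z : ℤ, c k - c k' ≠ z) (J d b : ℕ) (hd : 0 < d)
    (hb : b.Coprime d) (ρ : ℝ) (hρ : 0 < ρ) (hρ1 : ρ ≤ 1 / 2) :
    ∃ κ : ℝ, 0 < κ ∧ ∃ Z₀ : ℝ, ∀ Z : ℝ, Z₀ ≤ Z →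
    ∃ p : ℕ, p.Prime ∧ p ≡ b [MOD d] ∧ Z < p ∧ (p : ℝ) ≤ (1 + ρ) * Z ∧
      ∀ k, ∀ i : ℕ, i ≤ J → ∀ q : ℕ, q.Prime →
        κ * ff Z < |(q : ℝ) - ∑ x ∈ F k, a k x * ((p : ℝ) + i) ^ x| := by
  have hcard1 : 0 < Fintype.card (Idx c) := Fintype.card_pos_iff.mpr ⟨⟨⟨0, hs⟩, 0⟩⟩
  rcases Nat.lt_or_ge (Fintype.card (Idx c)) 2 with hlt | hge
  · -- one function of degree less than one
    have hone : Fintype.card (Idx c) = 1 := by omega
    have hsub : ∀ x y : Idx c, x = y := Fintype.card_le_one_iff.mp hone.le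
    have hs0 : ∀ k : Fin s, k = ⟨0, hs⟩ := fun k =>
      congrArg Sigma.fst (hsub ⟨k, 0⟩ ⟨⟨0, hs⟩, 0⟩)
    have hc0 : ∀ k, ⌊c k⌋₊ = 0 := by
      intro k
      by_contra hne
      have h1 := hsub ⟨k, 0⟩ ⟨k, ⟨1, by omega⟩⟩
      have h2 : (0 : Fin (⌊c k⌋₊ + 1)) = ⟨1, by omega⟩ := by
        have := (Sigma.mk.inj h1).2
        exact eq_of_heq this
      have h3 := congrArg Fin.val h2
      simp at h3
    have hinj : Function.Injective c := fun k k' _ => (hs0 k).trans (hs0 k').symm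
    obtain ⟨κ, hκ, Z₀, hZ⟩ := primes_gen (F := F) (a := a) (c := c) hs
      ⟨hmem, hle, hpos, hc, hnon, hinj⟩ d b hd hb ρ hρ
    obtain ⟨t₂, ht₂⟩ := eventually_atTop.mp (eventually_all.mpr fun k =>
      shift_values (F k) (a k) (c k) (hle k) J)
    obtain ⟨Z₁, hZ₁⟩ := eventually_atTop.mp (ff_large (2 / κ))
    refine ⟨κ / 2, by positivity, max Z₀ (max t₂ Z₁), fun Z hZZ => ?_⟩
    obtain ⟨p, h1, h2, h3, h4, h5⟩ := hZ Z ((le_max_left _ _).trans hZZ)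
    have hZt : t₂ ≤ Z := ((le_max_left _ _).trans (le_max_right _ _)).trans hZZ
    have h6 := hZ₁ Z (((le_max_right _ _).trans (le_max_right _ _)).trans hZZ)
    rw [div_le_iff₀ hκ] at h6
    refine ⟨p, h1, h2, h3, h4, fun k i hi q hq => ?_⟩
    have h7 := ht₂ p (by linarith) k i hi
    rw [hc0 k] at h7
    have h8 := sum_Fm (F k) (a k) 0 (p : ℝ)
    have h9 : ∑ y ∈ Fm (F k) 0, am (a k) 0 y * (p : ℝ) ^ y = ∑ x ∈ F k, a k x * (p : ℝ) ^ x := by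
      rw [h8]
      simp [Pool.Agent.TH915.PW.pw]
    rw [zero_add, Finset.sum_range_one, pow_zero, one_mul, h9] at h7
    have h10 := h5 k q hq
    have h11 : |(q : ℝ) - ∑ x ∈ F k, a k x * (p : ℝ) ^ x| ≤
        |(q : ℝ) - ∑ x ∈ F k, a k x * ((p : ℝ) + i) ^ x| + 1 := by
      have e1 : (q : ℝ) - ∑ x ∈ F k, a k x * (p : ℝ) ^ x =
          ((q : ℝ) - ∑ x ∈ F k, a k x * ((p : ℝ) + i) ^ x) +
          (∑ x ∈ F k, a k x * ((p : ℝ) + i) ^ x - ∑ x ∈ F k, a k x * (p : ℝ) ^ x) := by ring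
      rw [e1]
      exact (abs_add_le _ _).trans (by linarith)
    linarith
  · obtain ⟨N, hN⟩ : ∃ N, Fintype.card (Idx c) = N + 2 := ⟨Fintype.card (Idx c) - 2, by omega⟩
    set ε : Fin (N + 2) ≃ Idx c := (Fintype.equivFinOfCardEq hN).symm with hε
    set F' : Fin (N + 2) → Finset ℝ := fun j => Fm (F (ε j).1) (ε j).2 with hF'
    set a' : Fin (N + 2) → ℝ → ℝ := fun j => am (a (ε j).1) (ε j).2 with ha'
    set c' : Fin (N + 2) → ℝ := fun j => c (ε j).1 - ((ε j).2 : ℕ) with hc'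
    have H : Fam F' a' c' := fam_der F a c hmem hle hpos hc hnon hdiff ε
    have hr : 1 ≤ N + 2 := by omega
    have hne : Nonempty (LamP c J) := ⟨⟨(⟨0, hs⟩, 0), fun _ => rfl⟩⟩
    obtain ⟨ω₀, hω₀, hω₀1, hsums⟩ := primes_sums hr H d b hd hb ρ hρ hρ1
    obtain ⟨η₁, hη₁, hη₁c⟩ := exists_min_pos hr (fun j => c' j / 2) (fun j => by
      have := H.cpos j
      positivity)
    set η : ℝ := min ω₀ η₁ with hη
    have hη0 : 0 < η := lt_min hω₀ hη₁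
    have hηle : η ≤ ω₀ := min_le_left _ _
    have hηle1 : η ≤ η₁ := min_le_right _ _
    obtain ⟨κ, hκ, hcr⟩ := crit_scaledL (n := N) (AP J ε) (EP ε) (AP_EP J ε) (AP_indep J ε) η hη0
      (by linarith)
    refine ⟨κ, hκ, ?_⟩
    obtain ⟨t₁, ht₁⟩ := eventually_atTop.mp (eventually_all.mpr (val_lower H))
    obtain ⟨t₂, ht₂⟩ := eventually_atTop.mp (eventually_all.mpr fun k =>
      shift_values (F k) (a k) (c k) (hle k) J)
    have hev := hcr.and ((hsums η hη0 hηle).and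
      ((eventually_ge_atTop (max t₁ t₂)).and (eventually_ge_atTop (1 : ℝ))))
    obtain ⟨M₀, hM₀⟩ := eventually_atTop.mp hev
    refine ⟨M₀, ?_⟩
    intro M hM
    obtain ⟨b1, ⟨Q, hQne, hQmem, hQ⟩, b6, b7⟩ := hM₀ M hM
    have hM0 : 0 < M := by linarith
    obtain ⟨n, hn, hn2⟩ := b1 ℕ Q (fun p j => ∑ x ∈ F' j, a' j x * (p : ℝ) ^ x) hQne hQ
    obtain ⟨g1, g2, g3, g4⟩ := hQmem n hn
    refine ⟨n, g1, g2, g3, g4, fun k i hi q hq => ?_⟩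
    have ht2 := ht₂ n (by linarith [le_max_right t₁ t₂]) k i hi
    set y : ℝ := ∑ x ∈ F k, a k x * ((n : ℝ) + i) ^ x with hy
    -- lower bound
    have hylow : M ^ η ≤ y := by
      have h1 := ht₁ ((n : ℝ) + i) (by
        have := le_max_left t₁ t₂
        have : (0 : ℝ) ≤ i := Nat.cast_nonneg i
        linarith) (ε.symm ⟨k, 0⟩) M b7 (by
        have : (0 : ℝ) ≤ i := Nat.cast_nonneg i
        linarith) η hη0 (hηle1.trans (hη₁c _))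
      have h2 : ∑ x ∈ F' (ε.symm ⟨k, 0⟩), a' (ε.symm ⟨k, 0⟩) x * ((n : ℝ) + i) ^ x = y := by
        have h3 := sum_Fm (F k) (a k) 0 ((n : ℝ) + i)
        have h4 : ∀ z : Idx c, z = ⟨k, 0⟩ →
            ∑ x ∈ Fm (F z.1) z.2, am (a z.1) z.2 x * ((n : ℝ) + i) ^ x =
            ∑ x ∈ Fm (F k) 0, am (a k) 0 x * ((n : ℝ) + i) ^ x := by
          rintro _ rfl
          rfl
        rw [hF', ha']
        simp only
        rw [h4 _ (Equiv.apply_symm_apply ε _), h3, hy]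
        simp [Pool.Agent.TH915.PW.pw]
      rwa [h2] at h1
    -- the form
    have hform : ∀ p : LamP c J,
        ∑ j : Fin (N + 2), (AP J ε p j : ℝ) * (∑ x ∈ F' j, a' j x * (n : ℝ) ^ x) =
        ∑ m ∈ range (⌊c p.1.1⌋₊ + 1), (((p.1.2 : ℕ) : ℝ)) ^ m *
          ∑ y ∈ Fm (F p.1.1) m, am (a p.1.1) m y * (n : ℝ) ^ y := by
      intro p
      unfold AP
      obtain ⟨g, hg⟩ : ∃ g : Idx c → ℝ, ∀ x, g x = (((p.1.2 : ℕ) : ℝ)) ^ (x.2 : ℕ) *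
            ∑ y ∈ Fm (F x.1) x.2, am (a x.1) x.2 y * (n : ℝ) ^ y := ⟨_, fun _ => rfl⟩
      have h1 : ∀ j : Fin (N + 2), (((if (ε j).1 = p.1.1 then ((p.1.2 : ℕ) : ℤ) ^ ((ε j).2 : ℕ)
          else 0 : ℤ)) : ℝ) * (∑ x ∈ F' j, a' j x * (n : ℝ) ^ x) =
          if (ε j).1 = p.1.1 then g (ε j) else 0 := by
        intro j
        rw [hg]
        split_ifs
        · push_cast
          rfl
        · simp
      rw [Finset.sum_congr rfl fun j _ => h1 j, sum_idxP ε g p.1.1,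
        Finset.sum_range (fun m => (((p.1.2 : ℕ) : ℝ)) ^ m *
          ∑ y ∈ Fm (F p.1.1) m, am (a p.1.1) m y * (n : ℝ) ^ y)]
      exact Finset.sum_congr rfl fun m _ => hg _
    by_cases hk0 : ⌊c k⌋₊ = 0
    · apply hn2 ⟨(k, 0), fun _ => rfl⟩ y hylow _ q hq
      rw [hform ⟨(k, 0), fun _ => rfl⟩]
      simp only [Fin.val_zero]
      rw [hk0] at ht2 ⊢
      simpa using ht2
    · apply hn2 ⟨(k, ⟨i, by omega⟩), fun h => absurd h hk0⟩ y hylow _ q hq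
      rw [hform ⟨(k, ⟨i, by omega⟩), fun h => absurd h hk0⟩]
      exact ht2

/-- **Consecutive values from a prime number on, in long prime gaps.** -/
theorem prime_consecutive {s : ℕ} (hs : 1 ≤ s) (F : Fin s → Finset ℝ) (a : Fin s → ℝ → ℝ)
    (c : Fin s → ℝ) (hmem : ∀ k, c k ∈ F k) (hle : ∀ k, ∀ x ∈ F k, x ≤ c k)
    (hpos : ∀ k, 0 < a k (c k)) (hc : ∀ k, 0 < c k) (hnon : ∀ k, ∀ m : ℕ, c k ≠ m)
    (hdiff : ∀ k k', k ≠ k' → ∀ z : ℤ, c k - c k' ≠ z) (J d b : ℕ) (hd : 0 < d)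
    (hb : b.Coprime d) (ρ : ℝ) (hρ : 0 < ρ) :
    ∃ κ : ℝ, 0 < κ ∧ ∃ Z₀ : ℝ, ∀ Z : ℝ, Z₀ ≤ Z →
    ∃ p : ℕ, p.Prime ∧ p ≡ b [MOD d] ∧ Z < p ∧ (p : ℝ) ≤ (1 + ρ) * Z ∧
      ∀ k, ∀ i : ℕ, i ≤ J → ∀ q : ℕ, q.Prime →
        κ * ff Z < |(q : ℝ) - ∑ x ∈ F k, a k x * ((p : ℝ) + i) ^ x| := by
  obtain ⟨κ, hκ, Z₀, h⟩ := prime_consecutive_half hs F a c hmem hle hpos hc hnon hdiff J d b hd hb
    (min ρ (1 / 2)) (lt_min hρ (by norm_num)) (min_le_right _ _)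
  refine ⟨κ, hκ, max Z₀ 0, fun Z hZ => ?_⟩
  obtain ⟨p, h1, h2, h3, h4, h5⟩ := h Z ((le_max_left _ _).trans hZ)
  have hZ0 : 0 ≤ Z := (le_max_right _ _).trans hZ
  refine ⟨p, h1, h2, h3, h4.trans ?_, h5⟩
  have := min_le_left ρ (1 / 2)
  gcongr

end Pool.Agent.Q1.CV
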