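import Pool.Agent.Y961.JR.PGMain

set_option autoImplicit false

/-! # Consecutive values of generalised polynomials from a prime number on -/

namespace Pool.Agent.Q1.CV

open Finset Filter
open Pool.Agent.H469R2.NK (e norm_e e_add conj_e norm_sum_neg)
open Pool.Agent.W147.PS (ff ff_compare ev_pow)
open Pool.Agent.TH915.PW (pw pw_der lower_small class_bound prime_bound abel_bound card_primes)
open Pool.Agent.Y961.JR (Fam gg gg_zero val_lower exists_min_pos vm_all EE primes_gen)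

section

variable {r : ℕ} {F : Fin r → Finset ℝ} {a : Fin r → ℝ → ℝ} {c : Fin r → ℝ}

set_option maxHeartbeats 4000000 in
/-- exponential sums over the primes of a residue class in an interval -/
theorem primes_sums (hr : 1 ≤ r) (H : Fam F a c) (d b : ℕ) (hd : 0 < d) (hb : b.Coprime d)
    (ρ : ℝ) (hρ : 0 < ρ) (hρ1 : ρ ≤ 1 / 2) :
    ∃ ω₀ : ℝ, 0 < ω₀ ∧ ω₀ ≤ 1 ∧ ∀ ω : ℝ, 0 < ω → ω ≤ ω₀ → ∀ᶠ Z : ℝ in atTop,
    ∃ Q : Finset ℕ, Q.Nonempty ∧
      (∀ p ∈ Q, p.Prime ∧ p ≡ b [MOD d] ∧ Z < p ∧ (p : ℝ) ≤ (1 + ρ) * Z) ∧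
      ∀ q : ℕ, 1 ≤ q → (q : ℝ) ≤ Z ^ ω → ∀ h : Fin r → ℤ, h ≠ 0 → (∀ j, |(h j : ℝ)| ≤ Z ^ ω) →
      ‖∑ p ∈ Q, e (∑ j, (h j : ℝ) * ((∑ x ∈ F j, a j x * (p : ℝ) ^ x) / q))‖ ≤
        Q.card * Z ^ (-ω) := by
  classical
  obtain ⟨η, τ, hη, hη4, hτ, hτ16, hτη, x₀, hvm⟩ := vm_all hr H
  refine ⟨τ / 8, by positivity, by linarith, ?_⟩
  intro ω hω0 hωτ
  have hlogev : ∀ᶠ Z : ℝ in atTop, Real.log (2 * Z) ≤ Z ^ (1 / 4 : ℝ) := by
    have e1 := (isLittleO_log_rpow_atTop (show (0 : ℝ) < 1 / 8 by norm_num)).def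
      (show (0 : ℝ) < 1 by norm_num)
    have e2 : Tendsto (fun Z : ℝ => 2 * Z) atTop atTop := tendsto_id.const_mul_atTop (by norm_num)
    filter_upwards [e2.eventually e1, eventually_ge_atTop (1 : ℝ),
      ev_pow (1 / 8) (1 / 4) (2 ^ (1 / 8 : ℝ)) (by norm_num)] with Z e3 e4 e5
    rw [Real.norm_eq_abs, Real.norm_eq_abs, abs_of_nonneg (Real.log_nonneg (by linarith)),
      abs_of_nonneg (by positivity), one_mul, Real.mul_rpow (by norm_num) (by linarith)] at e3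
    linarith
  filter_upwards [card_primes d hd b hb ρ ω hρ (by linarith) hω0, hlogev,
    eventually_ge_atTop (4 : ℝ), eventually_ge_atTop (2 * x₀),
    ev_pow (3 / 4) (1 - τ) 4 (by linarith), ev_pow ω η 2 (by linarith),
    ev_pow (1 - τ) (1 - ω - ω) 2 (by linarith)]
    with Z hcard hlog hZ4 hZx hp1 hp2 hp3
  have hZ0 : 0 < Z := by linarith
  have hZ1 : 1 ≤ Z := by linarith
  set m₀ : ℕ := ⌊Z⌋₊ with hm₀
  set m₁ : ℕ := ⌊(1 + ρ) * Z⌋₊ with hm₁
  have hm04 : 4 ≤ m₀ := Nat.le_floor (by exact_mod_cast hZ4)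
  have hm0le : (m₀ : ℝ) ≤ Z := Nat.floor_le hZ0.le
  have hm0lt : Z < m₀ + 1 := Nat.lt_floor_add_one _
  have hm0half : Z / 2 ≤ (m₀ : ℝ) := by linarith
  have hm0pos : (0 : ℝ) < m₀ := by linarith
  have hm1' : (m₁ : ℝ) ≤ (1 + ρ) * Z := Nat.floor_le (by positivity)
  have hm1 : (m₁ : ℝ) ≤ 2 * Z := by nlinarith
  set Q : Finset ℕ := (Ioc m₀ m₁).filter (fun p => p.Prime ∧ p ≡ b [MOD d]) with hQ
  have hQpos : (0 : ℝ) < Q.card := lt_of_lt_of_le (by positivity) hcard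
  have hQne : Q.Nonempty := by
    rw [← Finset.card_pos]
    exact_mod_cast hQpos
  have hQmem : ∀ p ∈ Q, p.Prime ∧ p ≡ b [MOD d] ∧ Z < p ∧ (p : ℝ) ≤ (1 + ρ) * Z := by
    intro p hp
    rw [hQ, Finset.mem_filter, Finset.mem_Ioc] at hp
    refine ⟨hp.2.1, hp.2.2, ?_, ?_⟩
    · exact (Nat.floor_lt hZ0.le).mp hp.1.1
    · have : (p : ℝ) ≤ m₁ := by exact_mod_cast hp.1.2
      linarith
  have hm01 : m₀ < m₁ := by
    obtain ⟨p, hp⟩ := hQne
    rw [hQ, Finset.mem_filter, Finset.mem_Ioc] at hp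
    omega
  have hωη : Z ^ ω ≤ (m₀ : ℝ) ^ η := by
    have h1 : (Z / 2) ^ η ≤ (m₀ : ℝ) ^ η := Real.rpow_le_rpow (by positivity) hm0half hη.le
    have h2 : Z ^ η / 2 ≤ (Z / 2) ^ η := by
      rw [Real.div_rpow hZ0.le (by norm_num)]
      apply div_le_div_of_nonneg_left (by positivity) (by positivity)
      calc (2 : ℝ) ^ η ≤ 2 ^ (1 : ℝ) :=
            Real.rpow_le_rpow_of_exponent_le (by norm_num) (by linarith)
        _ = 2 := Real.rpow_one 2
    linarith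
  refine ⟨Q, hQne, hQmem, ?_⟩
  intro q hq hqZ h hh hhZ
  have hhZ' : ∀ j, |(h j : ℝ)| ≤ (m₀ : ℝ) ^ η := fun j => (hhZ j).trans hωη
  have hqZ' : (q : ℝ) ≤ (m₀ : ℝ) ^ η := hqZ.trans hωη
  have e0 : ∀ p ∈ Q, e (∑ j, (h j : ℝ) * ((∑ x ∈ F j, a j x * (p : ℝ) ^ x) / q)) =
      EE F a h q 0 p := by
    intro p _
    unfold EE
    congr 1
    rw [gg_zero, zero_mul, add_zero, Finset.sum_div]
    apply Finset.sum_congr rfl
    intro j _
    ring
  rw [sum_congr rfl e0]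
  set E : ℝ := 2 * Z ^ (1 - τ) with hE
  have hE0 : 0 ≤ E := by positivity
  set G : ℕ → ℂ := fun n => (((if n.Prime then Real.log n else 0 : ℝ)) : ℂ) *
    EE F a h q 0 n with hG
  have hcls : ∀ t : ℕ, m₀ ≤ t → t ≤ m₁ →
      ‖∑ n ∈ (Ioc m₀ t).filter (fun n => n ≡ b [MOD d]), G n‖ ≤ E := by
    intro t ht1 ht2
    have htr : (t : ℝ) ≤ 2 * Z := by
      have : (t : ℝ) ≤ m₁ := by exact_mod_cast ht2
      linarith
    have ht0 : 1 ≤ t := by omega
    have htlog : 2 * √(t : ℝ) * Real.log t ≤ Z ^ (1 - τ) := by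
      have h7 : √(t : ℝ) ≤ 2 * Z ^ (1 / 2 : ℝ) := by
        rw [← Real.sqrt_eq_rpow]
        calc √(t : ℝ) ≤ √(2 ^ 2 * Z) := Real.sqrt_le_sqrt (by linarith)
          _ = 2 * √Z := by rw [Real.sqrt_mul (by norm_num), Real.sqrt_sq (by norm_num)]
      have h8 : Real.log (t : ℝ) ≤ Z ^ (1 / 4 : ℝ) := by
        refine le_trans ?_ hlog
        apply Real.log_le_log _ htr
        exact_mod_cast ht0
      have h9 : 0 ≤ Real.log (t : ℝ) := Real.log_nonneg (by exact_mod_cast ht0)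
      calc 2 * √(t : ℝ) * Real.log t ≤ 2 * (2 * Z ^ (1 / 2 : ℝ)) * Z ^ (1 / 4 : ℝ) := by gcongr
        _ = 4 * (Z ^ (1 / 2 : ℝ) * Z ^ (1 / 4 : ℝ)) := by ring
        _ = 4 * Z ^ (3 / 4 : ℝ) := by rw [← Real.rpow_add hZ0]; norm_num
        _ ≤ _ := hp1
    apply class_bound (Ioc m₀ t) G d hd b E
    intro j _
    have ht2m : t ≤ 2 * m₀ := by
      have h1 : (t : ℝ) ≤ (1 + ρ) * Z := by
        have : (t : ℝ) ≤ m₁ := by exact_mod_cast ht2
        linarith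
      have h2 : (t : ℝ) ≤ 2 * m₀ := by nlinarith
      exact_mod_cast h2
    have hsplit : ‖∑ n ∈ Ioc m₀ t, ((ArithmeticFunction.vonMangoldt n : ℝ) : ℂ) *
        EE F a h q ((j : ℝ) / d) n‖ ≤ Z ^ (1 - τ) := by
      refine (hvm m₀ (by linarith) h hh hhZ' q hq hqZ' ((j : ℝ) / d) t ht1 ht2m).trans ?_
      exact Real.rpow_le_rpow hm0pos.le hm0le (by linarith)
    have h2 := prime_bound m₀ t ht0 (fun n => EE F a h q ((j : ℝ) / d) n)
      (fun n => (norm_e _).le) _ hsplit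
    have h3 : ∑ n ∈ Ioc m₀ t, G n * e ((j : ℝ) / d * n) =
        ∑ n ∈ Ioc m₀ t, (((if n.Prime then Real.log n else 0 : ℝ)) : ℂ) *
          EE F a h q ((j : ℝ) / d) n := by
      refine sum_congr rfl fun n _ => ?_
      rw [hG]
      simp only
      rw [mul_assoc]
      unfold EE
      rw [← e_add]
      congr 2
      ring
    rw [h3]
    refine h2.trans ?_
    rw [hE]
    linarith
  set A : ℕ → ℂ := fun n => if n ≡ b [MOD d] then G n else 0 with hA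
  set w : ℕ → ℝ := fun n => (Real.log n)⁻¹ with hw
  have hlogpos : ∀ n : ℕ, m₀ < n → 1 ≤ Real.log n := by
    intro n hn
    rw [Real.le_log_iff_exp_le (by
      have : 0 < n := by omega
      exact_mod_cast this)]
    have h1 := Real.exp_one_lt_d9
    have h2 : (5 : ℝ) ≤ n := by exact_mod_cast (by omega : 5 ≤ n)
    linarith
  have hab := abel_bound w A m₀ E (fun n hn => by
      have := hlogpos n hn
      rw [hw]
      positivity) (fun n hn => by
      have h1 := hlogpos n hn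
      rw [hw]
      simp only
      apply inv_anti₀ (by linarith)
      apply Real.log_le_log
      · have : 0 < n := by omega
        exact_mod_cast this
      · push_cast
        linarith) m₁ hm01 (fun t ht1 ht2 => by
      have h1 := hcls t ht1.le ht2
      rw [sum_filter] at h1
      exact h1)
  have hsum : ∑ p ∈ Q, EE F a h q 0 p = ∑ i ∈ Ioc m₀ m₁, (w i : ℂ) * A i := by
    rw [hQ, sum_filter]
    refine sum_congr rfl fun n hn => ?_
    have hn0 := hlogpos n (Finset.mem_Ioc.mp hn).1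
    rw [hA, hw, hG]
    simp only
    by_cases h1 : n ≡ b [MOD d]
    · by_cases h2 : n.Prime
      · rw [if_pos ⟨h2, h1⟩, if_pos h1, if_pos h2, ← mul_assoc]
        rw [← Complex.ofReal_mul, inv_mul_cancel₀ (by linarith), Complex.ofReal_one, one_mul]
      · rw [if_neg (fun h3 => h2 h3.1), if_pos h1, if_neg h2]
        simp
    · rw [if_neg (fun h3 => h1 h3.2), if_neg h1, mul_zero]
  rw [hsum]
  refine hab.trans ?_
  have hw1 : w (m₀ + 1) ≤ 1 := by
    rw [hw]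
    exact inv_le_one_of_one_le₀ (hlogpos (m₀ + 1) (by omega))
  calc w (m₀ + 1) * E ≤ 1 * E := mul_le_mul_of_nonneg_right hw1 hE0
    _ = 2 * Z ^ (1 - τ) := by rw [one_mul]
    _ ≤ Z ^ (1 - ω - ω) := hp3
    _ = Z ^ (1 - ω) * Z ^ (-ω) := by
        rw [← Real.rpow_add hZ0]; congr 1
    _ ≤ _ := by gcongr


end

end Pool.Agent.Q1.CV
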